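import Pool.Agent.P8H79.RC.Stm

/-!
# RC/CCS, RC/MON: the colourings of a strip
-/

set_option autoImplicit false

namespace Pool.Agent.P8H81.RC

open Pool.Agent.P8H79.RC

section strip

variable {V : Type} {G : SimpleGraph V} {N : ℕ} {x z : ZMod N → V}

lemma adj_x (h : IsStrip G N x z) (i : ZMod N) : G.Adj (x (i + 1)) (x i) :=
  (h.adj _ _).2 ⟨i, Or.inl ⟨rfl, Or.inl rfl⟩⟩

lemma adj_z (h : IsStrip G N x z) (i : ZMod N) : G.Adj (x (i + 1)) (z i) :=
  (h.adj _ _).2 ⟨i, Or.inl ⟨rfl, Or.inr rfl⟩⟩

lemma adj_xz (h : IsStrip G N x z) (i : ZMod N) : G.Adj (x i) (z i) := by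
  have h1 := adj_x h (i - 1)
  have h2 := adj_z h (i - 1)
  have h3 := h.step (i - 1)
  rw [sub_add_cancel] at h1 h2 h3
  rcases h3 with h3 | h3
  · rw [h3]; exact h2
  · rw [h3]; exact h1

lemma exists_pivot (h : IsStrip G N x z) (hN : 2 ≤ N) : ∃ i, z (i + 1) = x i := by
  by_contra hc
  push Not at hc
  haveI : NeZero N := ⟨by omega⟩
  have h1 : ∀ i, z (i + 1) = z i := fun i => (h.step i).resolve_right (hc i)
  have h2 : ∀ k : ℕ, z (k : ZMod N) = z 0 := by
    intro k
    induction k with
    | zero => rw [Nat.cast_zero]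
    | succ k ih => rw [Nat.cast_succ, h1, ih]
  have h3 : ∀ i, z i = z 0 := fun i => by
    rw [← ZMod.natCast_zmod_val i]; exact h2 _
  obtain ⟨j, hj⟩ := h.bij.2 (z 0)
  have h4 := (adj_xz h j).ne
  exact h4 (by rw [hj, h3 j])

end strip

theorem ccs : S_CCS := by
  intro V _ _ G N hN x z h
  haveI : NeZero N := ⟨by omega⟩
  refine ⟨exists_pivot h hN, fun q => ?_⟩
  set b : ZMod N → Bool := fun i => decide (z (i + 1) = x i) with hb
  set F : G.Coloring (Fin q) → Seqs N b q := fun c => ⟨fun i => (c (z i), c (x i)), fun i => by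
    refine ⟨(c.valid (adj_xz h i)).symm, ?_, c.valid (adj_z h i), c.valid (adj_x h i)⟩
    by_cases hp : z (i + 1) = x i
    · simp [hb, hp]
    · have hz : z (i + 1) = z i := (h.step i).resolve_right hp
      have hp' : ¬ (z i = x i) := fun e => hp (by rw [hz, e])
      simp [hb, hz, hp']⟩ with hF
  refine Nat.card_eq_of_bijective F ⟨?_, ?_⟩
  · intro c c' hcc
    have h1 : ∀ i, c (x i) = c' (x i) := by
      intro i
      have h2 := congrFun (congrArg Subtype.val hcc) i
      exact congrArg Prod.snd h2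
    refine DFunLike.ext _ _ fun v => ?_
    obtain ⟨i, rfl⟩ := h.bij.2 v
    exact h1 i
  · rintro ⟨s, hs⟩
    set e : ZMod N ≃ V := Equiv.ofBijective x h.bij with he
    have ex : ∀ i, e.symm (x i) = i := fun i => e.symm_apply_apply i
    set c : V → Fin q := fun v => (s (e.symm v)).2 with hc
    have cx : ∀ i, c (x i) = (s i).2 := fun i => by simp only [hc, ex]
    have stp : ∀ i, (s i).1 = c (z i) → (s (i + 1)).1 = c (z (i + 1)) := by
      intro i hi
      have h1 := (hs i).2.1
      by_cases hp : z (i + 1) = x i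
      · rw [h1]
        simp only [hb, hp, decide_true, if_true]
        exact (cx i).symm
      · have hz : z (i + 1) = z i := (h.step i).resolve_right hp
        rw [h1, hz]
        simp only [hb, hp, decide_false, Bool.false_eq_true, if_false]
        exact hi
    obtain ⟨j, hj⟩ := exists_pivot h hN
    have h0 : (s (j + 1)).1 = c (z (j + 1)) := by
      rw [(hs j).2.1, hj]
      simp only [hb, hj, decide_true, if_true]
      exact (cx j).symm
    have h1 : ∀ k : ℕ, (s (j + 1 + k)).1 = c (z (j + 1 + k)) := by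
      intro k
      induction k with
      | zero => simpa using h0
      | succ k ih =>
        have := stp _ ih
        rw [Nat.cast_succ, ← add_assoc]
        exact this
    have h2 : ∀ i, (s i).1 = c (z i) := by
      intro i
      have h3 := h1 (i - (j + 1)).val
      rw [ZMod.natCast_zmod_val] at h3
      have h4 : j + 1 + (i - (j + 1)) = i := by ring
      rwa [h4] at h3
    have hval : ∀ a b, G.Adj a b → c a ≠ c b := by
      intro a b hab
      obtain ⟨i, ⟨rfl, hi⟩ | ⟨rfl, hi⟩⟩ := (h.adj a b).1 hab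
      · rcases hi with rfl | rfl
        · rw [cx, cx]; exact (hs i).2.2.2
        · rw [cx, ← h2]; exact (hs i).2.2.1
      · rcases hi with rfl | rfl
        · rw [cx, cx]; exact (hs i).2.2.2.symm
        · rw [cx, ← h2]; exact (hs i).2.2.1.symm
    refine ⟨SimpleGraph.Coloring.mk c fun hab => hval _ _ hab, ?_⟩
    apply Subtype.ext
    funext i
    refine Prod.ext ?_ ?_
    · exact (h2 i).symm
    · exact cx i

lemma third (a b c : ZMod 3) (h1 : a ≠ b) (h2 : c ≠ a) (h3 : c ≠ b) : c = -(a + b) := by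
  revert a b c; decide

theorem mon : S_MON := by
  intro V _ _ G N hN x z h h3
  classical
  haveI : NeZero N := ⟨by omega⟩
  have hne : Nonempty (G.Coloring (Fin 3)) := by
    by_contra hc
    rw [not_nonempty_iff] at hc
    unfold cnt at h3
    rw [Nat.card_of_isEmpty] at h3
    exact lt_irrefl _ h3
  obtain ⟨c⟩ := hne
  set C : V → ZMod 3 := fun v => (c v : Fin 3) with hC
  have hCv : ∀ a b, G.Adj a b → C a ≠ C b := fun a b hab => c.valid hab
  set ε : ZMod N → ZMod 3 := fun i => C (x i) - C (z i) with hε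
  have ε0 : ∀ i, ε i ≠ 0 := fun i => sub_ne_zero.2 (hCv _ _ (adj_xz h i))
  have tr : ∀ i, ε (i + 1) = (if z (i + 1) ≠ x i then -1 else 1) * ε i := by
    intro i
    have h1 := third (C (x i)) (C (z i)) (C (x (i + 1))) (hCv _ _ (adj_xz h i))
      (hCv _ _ (adj_x h i)) (hCv _ _ (adj_z h i))
    have key : (3 : ZMod 3) = 0 := by decide
    by_cases hp : z (i + 1) = x i
    · rw [if_neg (not_not.2 hp), one_mul]
      simp only [hε]
      rw [h1, hp]
      linear_combination (-(C (x i))) * key
    · rw [if_pos hp]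
      have hz : z (i + 1) = z i := (h.step i).resolve_right hp
      simp only [hε]
      rw [h1, hz]
      linear_combination (-(C (z i))) * key
  have hprod : ∏ i, ε (i + 1) = ∏ i, ε i := Equiv.prod_comp (Equiv.addRight (1 : ZMod N)) ε
  have h4 : ∏ i : ZMod N, (if z (i + 1) ≠ x i then (-1 : ZMod 3) else 1) = 1 := by
    have h5 : (∏ i : ZMod N, (if z (i + 1) ≠ x i then (-1 : ZMod 3) else 1)) * ∏ i, ε i =
        1 * ∏ i, ε i := by
      rw [one_mul, ← Finset.prod_mul_distrib, ← hprod]
      exact Finset.prod_congr rfl fun i _ => (tr i).symm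
    exact mul_right_cancel₀ (Finset.prod_ne_zero_iff.2 fun i _ => ε0 i) h5
  rw [Finset.prod_ite, Finset.prod_const, Finset.prod_const_one, mul_one] at h4
  have h5 : {i : ZMod N | z (i + 1) ≠ x i}.ncard =
      (Finset.univ.filter fun i : ZMod N => z (i + 1) ≠ x i).card := by
    rw [Set.ncard_eq_toFinset_card']
    congr 1
    ext i
    simp
  rw [h5]
  rcases Nat.even_or_odd (Finset.univ.filter fun i : ZMod N => z (i + 1) ≠ x i).card with h6 | h6
  · exact h6
  · exfalso
    rw [h6.neg_one_pow] at h4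
    exact absurd h4 (by decide)

end Pool.Agent.P8H81.RC
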