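import Pool.Agent.P8H79.RC.Stm

/-!
# RC/TRA: the number of closed sequences of states by the transfer recursion
-/

set_option autoImplicit false

namespace Pool.Agent.P8H81.RC

open Pool.Agent.P8H79.RC

section mat

variable {q : ℕ}

/-- a step from `p` to `p'` -/
def PS (β : Bool) (p p' : Fin q × Fin q) : Prop :=
  p.1 ≠ p.2 ∧ p'.1 = (if β then p.2 else p.1) ∧ p'.2 ≠ p.1 ∧ p'.2 ≠ p.2

instance (β : Bool) (p p' : Fin q × Fin q) : Decidable (PS β p p') := by
  unfold PS; infer_instance

/-- transfer matrices -/
def MM (β : Bool) (p p' : Fin q × Fin q) : ℤ := if PS β p p' then 1 else 0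

/-- the number of paths -/
def WW (b : ℕ → Bool) : ℕ → Fin q × Fin q → Fin q × Fin q → ℤ
  | 0 => fun x y => if x = y then 1 else 0
  | k + 1 => fun x y => ∑ r, WW b k x r * MM (b k) r y

lemma path_sum (b : ℕ → Bool) (n : ℕ) (f : Fin q × Fin q → Fin q × Fin q → ℤ) :
    ∑ s : Fin (n + 1) → Fin q × Fin q,
      (∏ i : Fin n, MM (b i) (s i.castSucc) (s i.succ)) * f (s 0) (s (Fin.last n)) =
    ∑ x, ∑ y, WW b n x y * f x y := by
  induction n generalizing f with
  | zero =>
    simp only [WW, ite_mul, one_mul, zero_mul, Finset.sum_ite_eq, Finset.mem_univ, if_true]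
    refine Fintype.sum_equiv (Equiv.funUnique (Fin 1) (Fin q × Fin q)) _ _ fun s => ?_
    simp [Equiv.funUnique]
  | succ n ih =>
    rw [← (Fin.snocEquiv (fun _ : Fin (n + 2) => Fin q × Fin q)).sum_comp,
      Fintype.sum_prod_type, Finset.sum_comm]
    have h := ih (fun x r => ∑ y, MM (b n) r y * f x y)
    have e1 : ∀ s' : Fin (n + 1) → Fin q × Fin q,
        ∑ y : Fin q × Fin q, (∏ i : Fin (n + 1),
          MM (b i) ((Fin.snocEquiv (fun _ : Fin (n + 2) => Fin q × Fin q)) (y, s') i.castSucc)
            ((Fin.snocEquiv (fun _ : Fin (n + 2) => Fin q × Fin q)) (y, s') i.succ)) *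
          f ((Fin.snocEquiv (fun _ : Fin (n + 2) => Fin q × Fin q)) (y, s') 0)
            ((Fin.snocEquiv (fun _ : Fin (n + 2) => Fin q × Fin q)) (y, s') (Fin.last (n + 1))) =
        (∏ i : Fin n, MM (b i) (s' i.castSucc) (s' i.succ)) *
          ∑ y, MM (b n) (s' (Fin.last n)) y * f (s' 0) y := by
      intro s'
      rw [Finset.mul_sum]
      refine Finset.sum_congr rfl fun y _ => ?_
      set s : Fin (n + 2) → Fin q × Fin q :=
        (Fin.snocEquiv (fun _ : Fin (n + 2) => Fin q × Fin q)) (y, s') with hs
      have s1 : ∀ i : Fin (n + 1), s i.castSucc = s' i := fun i => by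
        rw [hs]; exact Fin.snoc_castSucc (α := fun _ => Fin q × Fin q) y s' i
      have s2 : s (Fin.last (n + 1)) = y := by
        rw [hs]; exact Fin.snoc_last (α := fun _ => Fin q × Fin q) y s'
      have s3 : s 0 = s' 0 := s1 0
      rw [Fin.prod_univ_castSucc, s2, s3, Fin.succ_last, s2, s1]
      simp only [Fin.succ_castSucc, s1, Fin.val_castSucc, Fin.val_last]
      ring
    rw [Finset.sum_congr rfl fun s' _ => e1 s', h]
    refine Finset.sum_congr rfl fun x _ => ?_
    simp only [WW, Finset.mul_sum, Finset.sum_mul]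
    rw [Finset.sum_comm]
    refine Finset.sum_congr rfl fun y _ => Finset.sum_congr rfl fun r _ => ?_
    ring

lemma card_seqs {n : ℕ} (b : ZMod (n + 1) → Bool) (k0 : ZMod (n + 1)) :
    (Nat.card (Seqs (n + 1) b q) : ℤ) =
      ∑ x : Fin q × Fin q, WW (fun k => b (k0 + (k : ZMod (n + 1)))) (n + 1) x x := by
  classical
  set g : Fin (n + 1) → ZMod (n + 1) := fun i => k0 + ((i : ℕ) : ZMod (n + 1)) with hg
  have hgi : Function.Injective g := by
    intro i j h
    have h1 : ((i : ℕ) : ZMod (n + 1)) = ((j : ℕ) : ZMod (n + 1)) := add_left_cancel h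
    rw [ZMod.natCast_eq_natCast_iff'] at h1
    rw [Nat.mod_eq_of_lt i.2, Nat.mod_eq_of_lt j.2] at h1
    exact Fin.ext h1
  have hgb : Function.Bijective g := by
    rw [Fintype.bijective_iff_injective_and_card]
    exact ⟨hgi, by rw [Fintype.card_fin, ZMod.card]⟩
  set e : Fin (n + 1) ≃ ZMod (n + 1) := Equiv.ofBijective g hgb with he
  have g1 : ∀ i : Fin n, g i.castSucc + 1 = g i.succ := by
    intro i
    simp only [hg, Fin.val_castSucc, Fin.val_succ]
    push_cast; ring
  have g2 : g (Fin.last n) + 1 = g 0 := by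
    simp only [hg, Fin.val_last]
    have : ((n : ℕ) : ZMod (n + 1)) + 1 = 0 := by
      have := ZMod.natCast_self (n + 1)
      push_cast at this
      exact this
    rw [add_assoc, this]
    simp
  have h1 : (Nat.card (Seqs (n + 1) b q) : ℤ) =
      ∑ s : ZMod (n + 1) → Fin q × Fin q, ∏ i, MM (b i) (s i) (s (i + 1)) := by
    have e1 : ∀ s : ZMod (n + 1) → Fin q × Fin q, ∏ i, MM (b i) (s i) (s (i + 1)) =
        if ∀ i, PS (b i) (s i) (s (i + 1)) then 1 else 0 := by
      intro s
      simp only [MM]
      rw [Fintype.prod_boole]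
    simp only [e1]
    rw [Finset.sum_boole, Nat.cast_inj]
    rw [Seqs, Nat.card_eq_fintype_card, Fintype.card_subtype]
    rfl
  rw [h1, ← (Equiv.arrowCongr e (Equiv.refl (Fin q × Fin q))).sum_comp]
  have h2 : ∀ t : Fin (n + 1) → Fin q × Fin q,
      ∏ i, MM (b i) ((Equiv.arrowCongr e (Equiv.refl (Fin q × Fin q))) t i)
        ((Equiv.arrowCongr e (Equiv.refl (Fin q × Fin q))) t (i + 1)) =
      (∏ i : Fin n, MM (b (k0 + ((i : ℕ) : ZMod (n + 1)))) (t i.castSucc) (t i.succ)) *
        MM (b (k0 + ((n : ℕ) : ZMod (n + 1)))) (t (Fin.last n)) (t 0) := by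
    intro t
    rw [← e.prod_comp, Fin.prod_univ_castSucc]
    have t1 : ∀ j, (Equiv.arrowCongr e (Equiv.refl (Fin q × Fin q))) t (g j) = t j := by
      intro j
      have : e.symm (g j) = j := e.symm_apply_apply j
      simp [Equiv.arrowCongr, this]
    have t2 : ∀ j, e j = g j := fun j => rfl
    simp only [t2, g1, g2, t1]
    rfl
  simp only [h2]
  rw [path_sum (fun k => b (k0 + (k : ZMod (n + 1)))) n
    (fun x y => MM (b (k0 + ((n : ℕ) : ZMod (n + 1)))) y x)]
  rfl

/-- the diagonal action of permutations -/
def sg (σ : Equiv.Perm (Fin q)) : Equiv.Perm (Fin q × Fin q) := Equiv.prodCongr σ σ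

lemma MM_sg (σ : Equiv.Perm (Fin q)) (β : Bool) (x y : Fin q × Fin q) :
    MM β (sg σ x) (sg σ y) = MM β x y := by
  unfold MM
  congr 1
  simp only [PS, sg, Equiv.prodCongr_apply, Prod.map_fst, Prod.map_snd, ne_eq,
    σ.injective.eq_iff, eq_iff_iff]
  cases β <;> simp [σ.injective.eq_iff]

lemma WW_sg (σ : Equiv.Perm (Fin q)) (b : ℕ → Bool) (k : ℕ) (x y : Fin q × Fin q) :
    WW b k (sg σ x) (sg σ y) = WW b k x y := by
  induction k generalizing y with
  | zero => simp only [WW, (sg σ).injective.eq_iff]
  | succ k ih =>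
    simp only [WW]
    rw [← Equiv.sum_comp (sg σ)]
    refine Finset.sum_congr rfl fun r _ => ?_
    rw [ih, MM_sg]

lemma WW_diag (b : ℕ → Bool) (k : ℕ) (x y : Fin q × Fin q) (hy : y.1 = y.2) :
    WW b (k + 1) x y = 0 := by
  simp only [WW]
  refine Finset.sum_eq_zero fun r _ => ?_
  have : MM (b k) r y = 0 := by
    unfold MM
    rw [if_neg]
    rintro ⟨_, h1, h2, h3⟩
    rw [← hy] at h2 h3
    cases hβ : b k with
    | true => rw [hβ] at h1; exact h3 h1
    | false => rw [hβ] at h1; exact h2 h1
  rw [this, mul_zero]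

end mat

section values

variable {m : ℕ}

/-- the value at a state -/
def val (v : V7) (y : Fin (m + 2) × Fin (m + 2)) : ℤ :=
  if y.1 = y.2 then 0 else
  if y.1 = 0 then (if y.2 = 1 then v.a else v.c) else
  if y.1 = 1 then (if y.2 = 0 then v.b else v.d) else
  if y.2 = 0 then v.e else if y.2 = 1 then v.f else v.g

lemma sum_two (z x : Fin (m + 2)) (hzx : z ≠ x) (h0 h1 h : ℤ) :
    ∑ r : Fin (m + 2), (if r ≠ z ∧ r ≠ x then (if r = 0 then h0 else if r = 1 then h1 else h)
      else 0) =
    (m : ℤ) * h + (if (0 : Fin (m + 2)) ≠ z ∧ (0 : Fin (m + 2)) ≠ x then h0 - h else 0) +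
      (if (1 : Fin (m + 2)) ≠ z ∧ (1 : Fin (m + 2)) ≠ x then h1 - h else 0) := by
  have e1 : ∀ r : Fin (m + 2),
      (if r ≠ z ∧ r ≠ x then (if r = 0 then h0 else if r = 1 then h1 else h) else 0) =
      h - (if r = z then h else 0) - (if r = x then h else 0) +
      (if r = 0 then (if (0 : Fin (m + 2)) ≠ z ∧ (0 : Fin (m + 2)) ≠ x then h0 - h else 0) else 0) +
      (if r = 1 then (if (1 : Fin (m + 2)) ≠ z ∧ (1 : Fin (m + 2)) ≠ x then h1 - h else 0)
        else 0) := by
    intro r
    by_cases hr0 : r = 0
    · subst hr0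
      have : (0 : Fin (m + 2)) ≠ 1 := by simp
      by_cases hz : (0 : Fin (m + 2)) = z
      · subst hz
        simp [hzx]
      · by_cases hx : (0 : Fin (m + 2)) = x
        · subst hx
          simp [hz]
        · simp [hz, hx]
    · by_cases hr1 : r = 1
      · subst hr1
        by_cases hz : (1 : Fin (m + 2)) = z
        · subst hz
          simp [hzx]
        · by_cases hx : (1 : Fin (m + 2)) = x
          · subst hx
            simp [hz]
          · simp [hz, hx]
      · by_cases hz : r = z
        · subst hz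
          simp [hr0, hr1, hzx]
        · by_cases hx : r = x
          · subst hx
            simp [hr0, hr1, Ne.symm hzx]
          · simp [hr0, hr1, hz, hx]
  simp only [e1]
  rw [Finset.sum_add_distrib, Finset.sum_add_distrib, Finset.sum_sub_distrib,
    Finset.sum_sub_distrib]
  simp only [Finset.sum_ite_eq', Finset.mem_univ, if_true, Finset.sum_const, Finset.card_univ,
    Fintype.card_fin, nsmul_eq_mul]
  push_cast
  ring

lemma step_val (β : Bool) (v : V7) (y : Fin (m + 2) × Fin (m + 2)) :
    ∑ r, val v r * MM β r y = val (stepV (m : ℤ) β v) y := by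
  obtain ⟨z, x⟩ := y
  by_cases hzx : z = x
  · subst hzx
    rw [val, if_pos rfl]
    refine Finset.sum_eq_zero fun r _ => ?_
    have : MM β r (z, z) = 0 := by
      unfold MM
      rw [if_neg]
      rintro ⟨_, h1, h2, h3⟩
      cases β with
      | true => exact h3 h1
      | false => exact h2 h1
    rw [this, mul_zero]
  · rw [Fintype.sum_prod_type]
    have h01 : (0 : Fin (m + 2)) ≠ 1 := by simp
    cases β with
    | true =>
      have e1 : ∀ r1 : Fin (m + 2), ∑ r2, val v (r1, r2) * MM true (r1, r2) (z, x) =
          if r1 ≠ z ∧ r1 ≠ x then (if r1 = 0 then (if z = 1 then v.a else v.c)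
            else if r1 = 1 then (if z = 0 then v.b else v.d)
            else (if z = 0 then v.e else if z = 1 then v.f else v.g)) else 0 := by
        intro r1
        rw [Finset.sum_eq_single z]
        · simp only [MM, PS, val, if_true, true_and]
          by_cases h1 : r1 = z
          · simp [h1]
          · by_cases h2 : r1 = x
            · simp [h2]
            · have h3 : x ≠ r1 := fun e => h2 e.symm
              have h4 : x ≠ z := fun e => hzx e.symm
              simp [h1, h2, h3, h4]
        · intro r2 _ hr2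
          have : MM true (r1, r2) (z, x) = 0 := by
            unfold MM
            rw [if_neg]
            rintro ⟨_, h1, _⟩
            exact hr2 h1.symm
          rw [this, mul_zero]
        · intro h; exact absurd (Finset.mem_univ z) h
      simp only [e1]
      rw [sum_two z x hzx]
      simp only [val, stepV, if_true, if_neg hzx]
      by_cases hz0 : z = 0
      · subst hz0
        have hx0 : x ≠ 0 := fun e => hzx e.symm
        by_cases hx1 : x = 1
        · subst hx1; simp
        · have : (1 : Fin (m + 2)) ≠ x := fun e => hx1 e.symm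
          simp [hx1, this]; ring
      · by_cases hz1 : z = 1
        · subst hz1
          by_cases hx0 : x = 0
          · subst hx0; simp
          · have : (0 : Fin (m + 2)) ≠ x := fun e => hx0 e.symm
            simp [hx0, this]; ring
        · have a0 : (0 : Fin (m + 2)) ≠ z := fun e => hz0 e.symm
          have a1 : (1 : Fin (m + 2)) ≠ z := fun e => hz1 e.symm
          by_cases hx0 : x = 0
          · subst hx0; simp [hz0, hz1, a0, a1]; ring
          · by_cases hx1 : x = 1
            · subst hx1; simp [hz0, hz1, a0, a1]; ring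
            · have b0 : (0 : Fin (m + 2)) ≠ x := fun e => hx0 e.symm
              have b1 : (1 : Fin (m + 2)) ≠ x := fun e => hx1 e.symm
              simp [hz0, hz1, a0, a1, hx0, hx1, b0, b1]; ring
    | false =>
      rw [Finset.sum_eq_single z]
      · have e1 : ∀ r2 : Fin (m + 2), val v (z, r2) * MM false (z, r2) (z, x) =
            if r2 ≠ z ∧ r2 ≠ x then (if r2 = 0 then (if z = 1 then v.b else v.e)
              else if r2 = 1 then (if z = 0 then v.a else v.f)
              else (if z = 0 then v.c else if z = 1 then v.d else v.g)) else 0 := by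
          intro r2
          simp only [MM, PS, val]
          by_cases h1 : r2 = z
          · simp [h1]
          · by_cases h2 : r2 = x
            · simp [h2]
            · have h3 : x ≠ r2 := fun e => h2 e.symm
              have h4 : x ≠ z := fun e => hzx e.symm
              have h5 : z ≠ r2 := fun e => h1 e.symm
              by_cases h6 : r2 = 0
              · subst h6
                have : z ≠ 0 := h5
                simp [h1, h3, h4, h5, h01, this, h2]
              · by_cases h7 : r2 = 1
                · subst h7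
                  have : z ≠ 1 := h5
                  simp [h1, h3, h4, h5, this, h2]
                · simp [h1, h2, h3, h4, h5, h6, h7]
        simp only [e1]
        rw [sum_two z x hzx]
        simp only [val, stepV, if_neg hzx, Bool.false_eq_true, if_false]
        by_cases hz0 : z = 0
        · subst hz0
          have hx0 : x ≠ 0 := fun e => hzx e.symm
          by_cases hx1 : x = 1
          · subst hx1; simp
          · have : (1 : Fin (m + 2)) ≠ x := fun e => hx1 e.symm
            simp [hx1, this]; ring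
        · by_cases hz1 : z = 1
          · subst hz1
            by_cases hx0 : x = 0
            · subst hx0; simp
            · have : (0 : Fin (m + 2)) ≠ x := fun e => hx0 e.symm
              simp [hx0, this]; ring
          · have a0 : (0 : Fin (m + 2)) ≠ z := fun e => hz0 e.symm
            have a1 : (1 : Fin (m + 2)) ≠ z := fun e => hz1 e.symm
            by_cases hx0 : x = 0
            · subst hx0; simp [hz0, hz1, a0, a1]; ring
            · by_cases hx1 : x = 1
              · subst hx1; simp [hz0, hz1, a0, a1]; ring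
              · have b0 : (0 : Fin (m + 2)) ≠ x := fun e => hx0 e.symm
                have b1 : (1 : Fin (m + 2)) ≠ x := fun e => hx1 e.symm
                simp [hz0, hz1, a0, a1, hx0, hx1, b0, b1]; ring
      · intro r1 _ hr1
        refine Finset.sum_eq_zero fun r2 _ => ?_
        have : MM false (r1, r2) (z, x) = 0 := by
          unfold MM
          rw [if_neg]
          rintro ⟨_, h1, _⟩
          exact hr1 h1.symm
        rw [this, mul_zero]
      · intro h; exact absurd (Finset.mem_univ z) h

lemma WW_val (b : ℕ → Bool) (k : ℕ) (y : Fin (m + 2) × Fin (m + 2)) :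
    WW b k (0, 1) y = val (vec (m : ℤ) b k) y := by
  induction k generalizing y with
  | zero =>
    obtain ⟨z, x⟩ := y
    simp only [WW, vec, val, Prod.mk.injEq]
    have h01 : (0 : Fin (m + 2)) ≠ 1 := by simp
    by_cases hz0 : z = 0
    · subst hz0
      by_cases hx1 : x = 1
      · subst hx1; simp
      · have : (1 : Fin (m + 2)) ≠ x := fun e => hx1 e.symm
        simp [hx1, this]
    · have : (0 : Fin (m + 2)) ≠ z := fun e => hz0 e.symm
      simp [hz0, this]
  | succ k ih =>
    simp only [WW, ih, vec]
    exact step_val (b k) _ y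

lemma exists_sg {q : ℕ} (o e x y : Fin q) (hoe : o ≠ e) (hxy : x ≠ y) :
    ∃ σ : Equiv.Perm (Fin q), σ o = x ∧ σ e = y := by
  refine ⟨Equiv.swap ((Equiv.swap o x) e) y * Equiv.swap o x, ?_, ?_⟩
  · rw [Equiv.Perm.mul_apply, Equiv.swap_apply_left]
    refine Equiv.swap_apply_of_ne_of_ne ?_ hxy
    intro h
    have h1 : (Equiv.swap o x) o = (Equiv.swap o x) e := by
      rw [Equiv.swap_apply_left]; exact h
    exact hoe ((Equiv.swap o x).injective h1)
  · rw [Equiv.Perm.mul_apply, Equiv.swap_apply_left]

end values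

theorem tra : S_TRA := by
  intro N q hN hq b k0
  obtain ⟨n, rfl⟩ : ∃ n, N = n + 1 := ⟨N - 1, by omega⟩
  obtain ⟨m, rfl⟩ : ∃ m, q = m + 2 := ⟨q - 2, by omega⟩
  rw [card_seqs b k0]
  set b' : ℕ → Bool := fun k => b (k0 + (k : ZMod (n + 1))) with hb'
  have h01 : (0 : Fin (m + 2)) ≠ 1 := by simp
  have e1 : ∀ x : Fin (m + 2) × Fin (m + 2), WW b' (n + 1) x x =
      if x.1 = x.2 then 0 else (vec (m : ℤ) b' (n + 1)).a := by
    intro x
    split_ifs with h
    · exact WW_diag b' n x x h
    · obtain ⟨σ, h1, h2⟩ := exists_sg (0 : Fin (m + 2)) 1 x.1 x.2 h01 h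
      have h3 : sg σ (0, 1) = x := by
        simp only [sg, Equiv.prodCongr_apply, Prod.map_apply, h1, h2]
      rw [← h3, WW_sg, WW_val]
      simp [val]
  simp only [e1]
  rw [Fintype.sum_prod_type]
  have e2 : ∀ x1 : Fin (m + 2), ∑ x2 : Fin (m + 2),
      (if x1 = x2 then (0 : ℤ) else (vec (m : ℤ) b' (n + 1)).a) =
      ((m : ℤ) + 1) * (vec (m : ℤ) b' (n + 1)).a := by
    intro x1
    have e3 : ∀ x2 : Fin (m + 2), (if x1 = x2 then (0 : ℤ) else (vec (m : ℤ) b' (n + 1)).a) =
        (vec (m : ℤ) b' (n + 1)).a - (if x1 = x2 then (vec (m : ℤ) b' (n + 1)).a else 0) := by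
      intro x2
      split_ifs <;> simp
    simp only [e3, Finset.sum_sub_distrib, Finset.sum_const, Finset.card_univ,
      Fintype.card_fin, nsmul_eq_mul, Finset.sum_ite_eq, Finset.mem_univ, if_true]
    push_cast; ring
  simp only [e2, Finset.sum_const, Finset.card_univ, Fintype.card_fin, nsmul_eq_mul]
  have e4 : (((m + 2 : ℕ) : ℤ) - 2) = m := by push_cast; ring
  rw [e4]
  push_cast; ring

end Pool.Agent.P8H81.RC
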