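import Pool.Agent.P8H79.RC.Stm

/-!
# RC/TRB: the transfer recursion modulo `s`
-/

set_option autoImplicit false

namespace Pool.Agent.P8H81.RC

open Pool.Agent.P8H79.RC

/-- the values modulo `s`, after `k` steps, `p` of which are pivot steps -/
structure Inv (R : Type) [CommRing R] (k : ℕ) (p : ℤ) (v : V7) : Prop where
  a : (v.a : R) = 0
  b : (v.b : R) = 0
  c : (v.c : R) = (-1) ^ k * (((p - 1) / 2 : ℤ) : R)
  d : (v.d : R) = (-1) ^ k * (((p - 2) / 2 : ℤ) : R)
  e : (v.e : R) = (-1) ^ k * ((p / 2 : ℤ) : R)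
  f : (v.f : R) = (-1) ^ k * (((p - 1) / 2 : ℤ) : R)
  g : (v.g : R) = (-1) ^ k * ((p - 1 : ℤ) : R)

lemma Inv.step {R : Type} [CommRing R] {k : ℕ} {p : ℤ} {v : V7} (h : Inv R k p v) {s : ℤ}
    (hs : (s : R) = 0) (β : Bool) : Inv R (k + 1) (p + if β then 1 else 0) (stepV s β v) := by
  obtain ⟨h1, hh1⟩ : ∃ h1 : ℤ, h1 = (p - 1) / 2 := ⟨_, rfl⟩
  obtain ⟨h2, hh2⟩ : ∃ h2 : ℤ, h2 = (p - 2) / 2 := ⟨_, rfl⟩
  have e3 : p / 2 = h2 + 1 := by omega
  have e4 : (p + 1) / 2 = h1 + 1 := by omega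
  have e5 : p = h1 + h2 + 2 := by omega
  obtain ⟨ha, hb, hc, hd, he, hf, hg⟩ := h
  rw [← hh1] at hc hf
  rw [← hh2] at hd
  rw [e3] at he
  have e5' : (p : R) = h1 + h2 + 2 := by rw [e5]; push_cast; ring
  cases β with
  | true =>
    simp only [stepV, if_true]
    have f1 : (p + 1 - 1) / 2 = h2 + 1 := by omega
    have f2 : (p + 1 - 2) / 2 = h1 := by omega
    constructor
    · push_cast; rw [hs]; ring
    · push_cast; rw [hs]; ring
    · rw [f1]; push_cast at *; rw [hs, hb, he]; ring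
    · rw [f2]; push_cast at *; rw [hs, ha, hf]; ring
    · rw [e4]; push_cast at *; rw [hs, hd, hg, e5']; ring
    · rw [f1]; push_cast at *; rw [hs, hc, hg, e5']; ring
    · push_cast at *; rw [hs, hc, hd, hg, e5']; ring
  | false =>
    simp only [stepV]
    have f1 : (p + 0 - 1) / 2 = h1 := by omega
    have f2 : (p + 0 - 2) / 2 = h2 := by omega
    have f3 : (p + 0) / 2 = h2 + 1 := by omega
    simp only [Bool.false_eq_true, if_false]
    constructor
    · push_cast; rw [hs]; ring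
    · push_cast; rw [hs]; ring
    · rw [f1]; push_cast at *; rw [hs, ha, hc]; ring
    · rw [f2]; push_cast at *; rw [hs, hb, hd]; ring
    · rw [f3]; push_cast at *; rw [hs, hf, hg, e5']; ring
    · rw [f1]; push_cast at *; rw [hs, he, hg, e5']; ring
    · push_cast at *; rw [hs, he, hf, hg, e5']; ring

/-- the number of pivot steps among the first `k` -/
def pv (b : ℕ → Bool) (k : ℕ) : ℤ := (((Finset.range k).filter (fun k => b k = true)).card : ℤ)

lemma pv_succ (b : ℕ → Bool) (k : ℕ) : pv b (k + 1) = pv b k + if b k then 1 else 0 := by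
  unfold pv
  rw [Finset.range_add_one, Finset.filter_insert]
  split_ifs with h
  · rw [Finset.card_insert_of_notMem (by simp)]
    push_cast; ring
  · simp

lemma inv_vec {R : Type} [CommRing R] {s : ℤ} (hs : (s : R) = 0) (b : ℕ → Bool)
    (hb : b 0 = true) (k : ℕ) : Inv R (k + 1) (pv b (k + 1)) (vec s b (k + 1)) := by
  induction k with
  | zero =>
    have h1 : pv b 1 = 1 := by
      rw [pv_succ, hb]; simp [pv]
    rw [h1]
    simp only [vec, hb, stepV, if_true, zero_add]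
    have e2 : ((1 : ℤ) - 2) / 2 = -1 := by norm_num
    constructor <;> simp [e2]
  | succ k ih =>
    rw [pv_succ b (k + 1)]
    exact ih.step hs (b (k + 1))

theorem trb : S_TRB := by
  intro s b N hN hb
  obtain ⟨n, rfl⟩ : ∃ n, N = n + 2 := ⟨N - 2, by omega⟩
  have hR : ((s : ℤ) : ZMod s.natAbs) = 0 := by
    rw [CharP.intCast_eq_zero_iff (ZMod s.natAbs) s.natAbs]
    exact Int.natAbs_dvd.2 dvd_rfl
  have hdvd : ∀ x : ℤ, ((x : ℤ) : ZMod s.natAbs) = 0 → s ∣ x := by
    intro x hx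
    rw [CharP.intCast_eq_zero_iff (ZMod s.natAbs) s.natAbs] at hx
    exact Int.natAbs_dvd.1 hx
  have h := inv_vec hR b hb n
  have hp := pv_succ b (n + 1)
  change ∃ M : ℤ, (stepV s (b (n + 1)) (vec s b (n + 1))).a = s * M ∧
    s ∣ M - (-1) ^ (n + 2 - 1) * ((pv b (n + 1 + 1) - 1) / 2)
  have e1 : n + 2 - 1 = n + 1 := rfl
  rw [e1, hp]
  cases hβ : b (n + 1) with
  | true =>
    refine ⟨(vec s b (n + 1)).e, by simp [stepV], hdvd _ ?_⟩
    simp only [if_true, add_sub_cancel_right]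
    push_cast
    rw [h.e]; ring
  | false =>
    refine ⟨(vec s b (n + 1)).c, by simp [stepV], hdvd _ ?_⟩
    simp only [Bool.false_eq_true, if_false, add_zero]
    push_cast
    have := h.c
    rw [this]; ring

end Pool.Agent.P8H81.RC
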