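import Pool.Agent.P8H81.RC.Lk

/-!
# Project RC: package BETA (a link with a cycle has at most as many edges as vertices).
-/

set_option autoImplicit false

namespace Pool.Agent.P8H81.RC

open Pool.Agent.P8H79.RC Pool.Agent.P8H1.RC

variable {V : Type} {G : SimpleGraph V}

theorem per_val {r : ℕ} (hr : 0 < r) (c : SimpleGraph.cycleGraph r ↪g G) (i : Fin r) :
    per hr c i.val = c i := by
  unfold per
  congr 1
  exact Fin.ext (Nat.mod_eq_of_lt i.2)

/-- The cycle through an edge `o o'` and an arc of the cycle `c`. -/
theorem arc_cycle {N r : ℕ} (hN : NoShort G N) (r0 : 0 < r) (hr : 4 ≤ r)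
    (c : SimpleGraph.cycleGraph r ↪g G) {o o' : V} (ho : ∀ i, c i ≠ o) (ho' : ∀ i, c i ≠ o')
    (hoo : G.Adj o o') (n a : ℕ) (ha : 1 ≤ a) (har : 2 * a ≤ r)
    (h1 : ∀ m, n ≤ m → m ≤ n + a → (G.Adj o (per r0 c m) ↔ m = n))
    (h2 : ∀ m, n ≤ m → m ≤ n + a → (G.Adj o' (per r0 c m) ↔ m = n + a)) :
    N ≤ 2 * (a + 3) := by
  by_contra hcon
  refine (hN (a + 3) (by omega) (by omega)).false
    (Classical.choice (exists_emb (r := a + 3) (by omega)
      (fun i => if i = 0 then o else if i = a + 2 then o' else per r0 c (n + (i - 1))) ?_ ?_))
  · intro i j hij hj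
    have hj0 : j ≠ 0 := by omega
    simp only [hj0, if_false]
    by_cases hi : i = 0
    · simp only [hi, if_true]
      split_ifs with h3
      · exact hoo.ne
      · exact (ho _).symm
    · have hi2 : i ≠ a + 2 := by omega
      simp only [hi, hi2, if_false]
      split_ifs with h3
      · exact ho' _
      · exact per_ne r0 c _ _ (by omega) (by omega)
  · intro i j hij hj
    have hj0 : j ≠ 0 := by omega
    simp only [hj0, if_false]
    by_cases hi : i = 0
    · simp only [hi, if_true]
      split_ifs with h3
      · subst h3
        constructor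
        · intro _
          right
          exact ⟨trivial, by omega⟩
        · intro _
          exact hoo
      · rw [h1 _ (by omega) (by omega)]
        constructor
        · intro h
          left; omega
        · rintro (h | ⟨-, h⟩)
          · omega
          · omega
    · have hi2 : i ≠ a + 2 := by omega
      simp only [hi, hi2, if_false]
      split_ifs with h3
      · rw [SimpleGraph.adj_comm, h2 _ (by omega) (by omega)]
        constructor
        · intro h
          left; omega
        · rintro (h | ⟨h, -⟩)
          · omega
          · exact h.elim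
      · rw [per_adj r0 (by omega) c _ _ (by omega) (by omega)]
        constructor
        · rintro (h | h)
          · left; omega
          · exfalso; omega
        · rintro (h | ⟨h, -⟩)
          · left; omega
          · exact h.elim

theorem beta : S_BETA := by
  classical
  intro V _ G h13 h4 hN l hl hNl q hq v hv
  have : NeZero l := ⟨by omega⟩
  obtain ⟨r, hr4, hNr, ⟨c⟩⟩ := hole_link h4 hN v hv
  have hcl := closed_card hq v
  have hrd := link_le c
  set N := Fintype.card V with hNdef
  set d := (G.neighborSet v).ncard with hd
  have r0 : 0 < r := by omega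
  set H := link G v with hH
  set C : SimpleGraph.cycleGraph r ↪g G := c.trans (incl G v) with hC
  have hCv : ∀ i, C i = (c i).1 := fun i => rfl
  have hvC : ∀ i, G.Adj v (C i) := fun i => (c i).2
  -- uniqueness of the neighbour on the cycle
  have huniq : ∀ o : G.neighborSet v, (∀ i, c i ≠ o) → ∀ i j, H.Adj o (c i) → H.Adj o (c j) →
      i = j := by
    intro o ho i j h1 h2
    exact nb2 V G N r h4 hN hr4 (by omega) C v o.1 hvC o.2
      (fun k h => ho k (Subtype.ext h)) i j h1 h2
  -- vertices outside of the cycle
  have hout : ∀ a b x : G.neighborSet v, (∀ i, c i ≠ a) → (∀ i, c i ≠ b) → (∀ i, c i ≠ x) →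
      a ≠ b → (x = a ∨ x = b) ∧ d = r + 2 := by
    intro a b x ha hb hx hab
    have hcard : ∀ S : Finset (G.neighborSet v), (∀ y ∈ S, ∀ i, c i ≠ y) → S.card + r ≤ d := by
      intro S hS
      have h1 : (S ∪ Finset.univ.image c).card = S.card + r := by
        rw [Finset.card_union_of_disjoint, Finset.card_image_of_injective _ c.injective,
          Finset.card_univ, Fintype.card_fin]
        rw [Finset.disjoint_left]
        intro y hy hy2
        rw [Finset.mem_image] at hy2
        obtain ⟨i, -, h⟩ := hy2
        exact hS y hy i h
      rw [← h1, hd, ← Nat.card_coe_set_eq, Nat.card_eq_fintype_card]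
      exact Finset.card_le_univ _
    have h2 := hcard {a, b} (by
      intro y hy i
      rw [Finset.mem_insert, Finset.mem_singleton] at hy
      rcases hy with rfl | rfl
      · exact ha i
      · exact hb i)
    rw [Finset.card_pair hab] at h2
    refine ⟨?_, by omega⟩
    by_contra hcon
    push Not at hcon
    have h3 := hcard {x, a, b} (by
      intro y hy i
      rw [Finset.mem_insert, Finset.mem_insert, Finset.mem_singleton] at hy
      rcases hy with rfl | rfl | rfl
      · exact hx i
      · exact ha i
      · exact hb i)
    rw [Finset.card_insert_of_notMem (by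
      rw [Finset.mem_insert, Finset.mem_singleton]; push Not; exact hcon),
      Finset.card_pair hab] at h3
    omega
  -- the choice function
  set g : G.neighborSet v → G.neighborSet v := fun x =>
    if h : ∃ i, c i = x then c (nx h.choose)
    else if h : ∃ i, H.Adj x (c i) then c h.choose
    else if h : ∃ y, (∀ i, c i ≠ y) ∧ H.Adj x y then h.choose else x with hg
  have g1 : ∀ i, g (c i) = c (nx i) := by
    intro i
    have h : ∃ j, c j = c i := ⟨i, rfl⟩
    simp only [hg]
    rw [dif_pos h]
    congr 2
    exact c.injective h.choose_spec
  have g2 : ∀ o : G.neighborSet v, (∀ i, c i ≠ o) → ∀ i, H.Adj o (c i) → g o = c i := by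
    intro o ho i hi
    have h : ¬ ∃ i, c i = o := by push Not; exact ho
    have h' : ∃ i, H.Adj o (c i) := ⟨i, hi⟩
    simp only [hg]
    rw [dif_neg h, dif_pos h']
    congr 1
    exact huniq o ho _ _ h'.choose_spec hi
  have g3 : ∀ o o' : G.neighborSet v, (∀ i, c i ≠ o) → (∀ i, c i ≠ o') → H.Adj o o' →
      (¬ ∃ i, H.Adj o (c i)) → g o = o' := by
    intro o o' ho ho' hoo hno
    have h : ¬ ∃ i, c i = o := by push Not; exact ho
    have h' : ∃ y, (∀ i, c i ≠ y) ∧ H.Adj o y := ⟨o', ho', hoo⟩
    simp only [hg]
    rw [dif_neg h, dif_neg hno, dif_pos h']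
    have h5 := h'.choose_spec
    rcases (hout o o' h'.choose ho ho' h5.1 hoo.ne).1 with h6 | h6
    · exfalso
      have h7 := h5.2
      rw [h6] at h7
      exact H.loopless.irrefl _ h7
    · exact h6
  -- both have neighbours on the cycle
  have hboth : ∀ o o' : G.neighborSet v, (∀ i, c i ≠ o) → (∀ i, c i ≠ o') → H.Adj o o' →
      ∀ i j, H.Adj o (c i) → H.Adj o' (c j) → False := by
    have key : ∀ o o' : G.neighborSet v, (∀ i, c i ≠ o) → (∀ i, c i ≠ o') → H.Adj o o' →
      ∀ i j : Fin r, H.Adj o (c i) → H.Adj o' (c j) → ∀ a, 1 ≤ a → 2 * a ≤ r →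
      (j.val = i.val + a ∨ j.val + r = i.val + a) → False := by
      intro o o' ho ho' hoo i j hi hj a ha har hija
      have hd2 := (hout o o' o ho ho' ho hoo.ne).2
      have e1 : ∀ m, G.Adj o.1 (per r0 C m) ↔ m % r = i.val := by
        intro m
        constructor
        · intro h
          exact congrArg Fin.val (huniq o ho ⟨m % r, Nat.mod_lt m r0⟩ i h hi)
        · intro h
          have h5 : per r0 C m = C i := by
            unfold per
            congr 1
            exact Fin.ext h
          rw [h5]
          exact hi
      have e2 : ∀ m, G.Adj o'.1 (per r0 C m) ↔ m % r = j.val := by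
        intro m
        constructor
        · intro h
          exact congrArg Fin.val (huniq o' ho' ⟨m % r, Nat.mod_lt m r0⟩ j h hj)
        · intro h
          have h5 : per r0 C m = C j := by
            unfold per
            congr 1
            exact Fin.ext h
          rw [h5]
          exact hj
      have hi2 := i.2
      have hj2 := j.2
      have h5 := arc_cycle hN r0 hr4 C (o := o.1) (o' := o'.1)
        (fun k h => ho k (Subtype.ext h)) (fun k h => ho' k (Subtype.ext h)) hoo i.val a ha har
        (by
          intro m hm1 hm2
          rw [e1]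
          constructor
          · intro h
            rcases Nat.lt_or_ge m r with h6 | h6
            · rw [Nat.mod_eq_of_lt h6] at h; exact h
            · rw [Nat.mod_eq_sub_mod h6, Nat.mod_eq_of_lt (by omega)] at h
              omega
          · intro h
            rw [h, Nat.mod_eq_of_lt hi2])
        (by
          intro m hm1 hm2
          rw [e2]
          constructor
          · intro h
            rcases Nat.lt_or_ge m r with h6 | h6
            · rw [Nat.mod_eq_of_lt h6] at h
              omega
            · rw [Nat.mod_eq_sub_mod h6, Nat.mod_eq_of_lt (by omega)] at h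
              omega
          · intro h
            rcases hija with h6 | h6
            · rw [h, ← h6, Nat.mod_eq_of_lt hj2]
            · rw [h, ← h6, Nat.add_mod_right, Nat.mod_eq_of_lt hj2])
      omega
    intro o o' ho ho' hoo i j hi hj
    have hi2 := i.2
    have hj2 := j.2
    rcases lt_trichotomy i.val j.val with h | h | h
    · by_cases h5 : 2 * (j.val - i.val) ≤ r
      · exact key o o' ho ho' hoo i j hi hj (j.val - i.val) (by omega) h5 (by omega)
      · exact key o' o ho' ho hoo.symm j i hj hi (i.val + r - j.val) (by omega) (by omega)
          (by omega)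
    · have hij : i = j := Fin.ext h
      subst hij
      exact no_k4 h4 o.2 o'.2 (c i).2 hoo hi hj
    · by_cases h5 : 2 * (i.val - j.val) ≤ r
      · exact key o' o ho' ho hoo.symm j i hj hi (i.val - j.val) (by omega) h5 (by omega)
      · exact key o o' ho ho' hoo i j hi hj (j.val + r - i.val) (by omega) (by omega)
          (by omega)
  have hle := edge_le H g (by
    intro a b hab
    by_cases ha : ∃ i, c i = a
    · obtain ⟨i, rfl⟩ := ha
      by_cases hb : ∃ j, c j = b
      · obtain ⟨j, rfl⟩ := hb
        rw [g1, g1]
        rcases cyc_nx (by omega) (c.map_adj_iff.1 hab) with h | h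
        · left; rw [← h]
        · right; rw [← h]
      · push Not at hb
        right
        exact (g2 b hb i hab.symm).symm
    · push Not at ha
      by_cases hb : ∃ j, c j = b
      · obtain ⟨j, rfl⟩ := hb
        left
        exact (g2 a ha j hab).symm
      · push Not at hb
        by_cases h1 : ∃ i, H.Adj a (c i)
        · by_cases h2 : ∃ j, H.Adj b (c j)
          · obtain ⟨i, hi⟩ := h1
            obtain ⟨j, hj⟩ := h2
            exact (hboth a b ha hb hab i j hi hj).elim
          · right
            exact (g3 b a hb ha hab.symm h2).symm
        · left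
          exact (g3 a b ha hb hab h1).symm)
  rw [Nat.card_coe_set_eq] at hle
  exact hle

end Pool.Agent.P8H81.RC
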