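import Pool.Agent.P8H81.RC.Lk
import Pool.Agent.P8H1.RC.Link

/-!
# Project RC: package FINW (all links are forests, small `n`).
-/

set_option autoImplicit false

namespace Pool.Agent.P8H81.RC

open Pool.Agent.P8H79.RC Pool.Agent.P8H1.RC

theorem conn_adj {W : Type} {H : SimpleGraph W} (hH : H.Connected) {y y' : W} (h : y ≠ y') :
    ∃ z, H.Adj y z := by
  obtain ⟨p⟩ := hH.preconnected y y'
  cases p with
  | nil => exact absurd rfl h
  | cons hadj _ => exact ⟨_, hadj⟩

theorem shift_card {l : ℕ} [NeZero l] (T : Finset (ZMod l)) (hT : T ≠ Finset.univ) :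
    (T.filter (fun i => i - 1 ∈ T)).card ≤ T.card - 1 := by
  rcases T.eq_empty_or_nonempty with rfl | ⟨p0, hp0⟩
  · simp
  by_contra hcon
  have h1 : T.filter (fun i => i - 1 ∈ T) = T := by
    apply Finset.eq_of_subset_of_card_le (Finset.filter_subset _ _)
    have : 0 < T.card := Finset.card_pos.2 ⟨p0, hp0⟩
    omega
  have h2 : ∀ p ∈ T, p - 1 ∈ T := by
    intro p hp
    rw [← h1] at hp
    exact (Finset.mem_filter.1 hp).2
  have h3 : ∀ k : ℕ, p0 - (k : ZMod l) ∈ T := by
    intro k
    induction k with
    | zero => rw [Nat.cast_zero, sub_zero]; exact hp0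
    | succ k ih =>
      have := h2 _ ih
      rwa [Nat.cast_add, Nat.cast_one, ← sub_sub]
  apply hT
  rw [Finset.eq_univ_iff_forall]
  intro i
  have := h3 (p0 - i).val
  rwa [ZMod.natCast_zmod_val, sub_sub_cancel] at this

/-- At most one vertex different from `v` has a link which is not connected. -/
theorem one_bad {V : Type} [Fintype V] {G : SimpleGraph V} {v : V}
    (hne : ∀ v, (G.neighborSet v).Nonempty)
    (h2 : cl G Finset.univ 2 = 2 * Fintype.card V) (h3 : cl G Finset.univ 3 = Fintype.card V)
    (ha : ∀ u, u ≠ v → (link G u).IsAcyclic)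
    (hb : (link G v).edgeSet.ncard ≤ (G.neighborSet v).ncard)
    (u1 u2 : V) (h1v : u1 ≠ v) (h2v : u2 ≠ v) (h12 : u1 ≠ u2)
    (hc1 : ¬ (link G u1).Connected) (hc2 : ¬ (link G u2).Connected) : False := by
  classical
  have hne' : ∀ v, Nonempty (G.neighborSet v) := fun v => (hne v).to_subtype
  have hle : ∀ u, u ≠ v → cl (link G u) Finset.univ 2 + 1 ≤
      Fintype.card (G.neighborSet u) := fun u hu => by
    have := hne' u
    exact (forest (ha u hu)).1
  have hle2 : ∀ u, u ≠ v → ¬ (link G u).Connected → cl (link G u) Finset.univ 2 + 2 ≤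
      Fintype.card (G.neighborSet u) := fun u hu hcu => by
    have := hne' u
    have h5 := forest (ha u hu)
    by_contra hcon
    exact hcu (h5.2 (by omega)).connected
  have hlv : cl (link G v) Finset.univ 2 ≤ Fintype.card (G.neighborSet v) := by
    rw [edge_card, ← Set.ncard_coe_finset, SimpleGraph.coe_edgeFinset]
    refine hb.trans (le_of_eq ?_)
    rw [← Nat.card_coe_set_eq, Nat.card_eq_fintype_card]
  have hsum : ∑ u : V, (cl (link G u) Finset.univ 2 + 1) =
      ∑ u : V, Fintype.card (G.neighborSet u) := by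
    rw [Finset.sum_add_distrib, Finset.sum_congr rfl fun u _ => link_card G u, sum_tri, h3,
      Finset.sum_const, Finset.card_univ, smul_eq_mul, mul_one]
    have h5 := G.sum_degrees_eq_twice_card_edges
    rw [← edge_card, h2] at h5
    have h6 : ∑ u : V, Fintype.card (G.neighborSet u) = ∑ u : V, G.degree u :=
      Finset.sum_congr rfl fun u _ => by
        rw [SimpleGraph.card_neighborSet_eq_degree]
    rw [h6, h5]
    ring
  have h : ∑ u : V, ((cl (link G u) Finset.univ 2 + 1) + ((if u = u1 then 1 else 0) +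
      (if u = u2 then 1 else 0))) ≤
      ∑ u : V, (Fintype.card (G.neighborSet u) + if u = v then 1 else 0) := by
    refine Finset.sum_le_sum fun u _ => ?_
    by_cases e1 : u = u1
    · have e2 : u ≠ u2 := by rw [e1]; exact h12
      have e3 : u ≠ v := by rw [e1]; exact h1v
      rw [if_pos e1, if_neg e2, if_neg e3]
      have := hle2 u e3 (by rw [e1]; exact hc1)
      omega
    · rw [if_neg e1]
      by_cases e2 : u = u2
      · have e3 : u ≠ v := by rw [e2]; exact h2v
        rw [if_pos e2, if_neg e3]
        have := hle2 u e3 (by rw [e2]; exact hc2)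
        omega
      · rw [if_neg e2]
        by_cases e3 : u = v
        · rw [if_pos e3]
          have := hlv
          rw [e3]
          omega
        · rw [if_neg e3]
          have := hle u e3
          omega
  rw [Finset.sum_add_distrib, hsum, Finset.sum_add_distrib, Finset.sum_add_distrib,
    Finset.sum_ite_eq', Finset.sum_ite_eq', Finset.sum_ite_eq', if_pos (Finset.mem_univ _),
    if_pos (Finset.mem_univ _), if_pos (Finset.mem_univ _)] at h
  omega

theorem finw : S_ALPHA → S_BETA → S_FINW := by
  classical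
  intro halpha hbeta V _ G hN h4 hsh hne hE hT3 l hl hNl q hq v
  by_contra hv
  have : NeZero l := ⟨by omega⟩
  have h13 : 13 ≤ Fintype.card V := by omega
  obtain ⟨r, hr4, hNr, ⟨c⟩⟩ := hole_link h4 hsh v hv
  have hbad1 : ∀ u1 u2 : V, u1 ≠ v → u2 ≠ v → u1 ≠ u2 → ¬ (link G u1).Connected →
      ¬ (link G u2).Connected → False :=
    one_bad hne hE hT3 (fun u hu => halpha V G h13 h4 hsh l hl hNl q hq u v hu hv)
      (hbeta V G h13 h4 hsh l hl hNl q hq v hv)
  -- constants in `ZMod l`
  have hz : ∀ k : ℕ, 0 < k → k < 7 → ((k : ℕ) : ZMod l) ≠ 0 := by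
    intro k h1 h2 h
    rw [ZMod.natCast_eq_zero_iff] at h
    have := Nat.le_of_dvd h1 h
    omega
  have z1 : (1 : ZMod l) ≠ 0 := by have := hz 1 (by omega) (by omega); exact_mod_cast this
  have z2 : (2 : ZMod l) ≠ 0 := by have := hz 2 (by omega) (by omega); exact_mod_cast this
  have z3 : (3 : ZMod l) ≠ 0 := by have := hz 3 (by omega) (by omega); exact_mod_cast this
  have hqs : ∀ i, G.Adj (q i) (q (i + 1)) := fun i => (hq.adj _ _).2 (Or.inl rfl)
  have hqp : ∀ i, G.Adj (q i) (q (i - 1)) := fun i =>
    (hq.adj _ _).2 (Or.inr (by ring))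
  set T : Finset (ZMod l) := Finset.univ.filter
    (fun i => ∃ w, G.Adj w (q i) ∧ G.Adj w (q (i + 1))) with hTdef
  have memT : ∀ i, i ∈ T ↔ ∃ w, G.Adj w (q i) ∧ G.Adj w (q (i + 1)) := by
    intro i
    rw [hTdef, Finset.mem_filter]
    simp
  -- bad positions
  have hbadc : ∀ i, (i ∉ T ∨ i - 1 ∉ T) → ¬ (link G (q i)).Connected := by
    intro i hi hc
    have hnn : (⟨q (i + 1), hqs i⟩ : G.neighborSet (q i)) ≠ ⟨q (i - 1), hqp i⟩ := by
      intro h
      have h1 := hq.inj (congrArg Subtype.val h)
      apply z2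
      have h2 : (2 : ZMod l) = (i + 1) - (i - 1) := by ring
      rw [h2, h1, sub_self]
    rcases hi with hi | hi
    · obtain ⟨z, hz1⟩ := conn_adj hc hnn
      apply hi
      rw [memT]
      exact ⟨z.1, z.2.symm, (show G.Adj (q (i + 1)) z.1 from hz1).symm⟩
    · obtain ⟨z, hz1⟩ := conn_adj hc hnn.symm
      apply hi
      rw [memT]
      refine ⟨z.1, (show G.Adj (q (i - 1)) z.1 from hz1).symm, ?_⟩
      rw [sub_add_cancel]
      exact z.2.symm
  set B : Finset (ZMod l) := Finset.univ.filter (fun i => i ∉ T ∨ i - 1 ∉ T) with hB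
  have memB : ∀ i, i ∈ B ↔ (i ∉ T ∨ i - 1 ∉ T) := by
    intro i
    rw [hB, Finset.mem_filter]
    simp
  have hBv : ∀ i ∈ B, ∀ j ∈ B, i ≠ j → q i = v ∨ q j = v := by
    intro i hi j hj hij
    by_contra hcon
    push Not at hcon
    exact hbad1 (q i) (q j) hcon.1 hcon.2 (fun h => hij (hq.inj h))
      (hbadc i ((memB i).1 hi)) (hbadc j ((memB j).1 hj))
  have hBcard : T ≠ Finset.univ → l + 1 ≤ B.card + T.card ∨ B.card = l := by
    intro hT
    have h1 := shift_card T hT
    have h2 : Bᶜ = T.filter (fun i => i - 1 ∈ T) := by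
      ext i
      rw [Finset.mem_compl, memB, Finset.mem_filter (s := T)]
      tauto
    have h5 : B.card + Bᶜ.card = l := by
      rw [Finset.card_add_card_compl, ZMod.card]
    rw [h2] at h5
    omega
  -- the sets `A`, `Q`, `O`
  set Z : Finset V := Finset.univ.image (fun i => (c i).1) with hZ
  set A : Finset V := insert v Z with hA
  set Q : Finset V := Finset.univ.image q with hQ
  have memZ : ∀ x, x ∈ Z ↔ ∃ i, (c i).1 = x := by
    intro x
    rw [hZ, Finset.mem_image]
    simp
  have memQ : ∀ x, x ∈ Q ↔ ∃ i, q i = x := by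
    intro x
    rw [hQ, Finset.mem_image]
    simp
  have hZv : ∀ x ∈ Z, G.Adj v x := by
    intro x hx
    obtain ⟨i, rfl⟩ := (memZ x).1 hx
    exact (c i).2
  have cardA : A.card = r + 1 := by
    rw [hA, Finset.card_insert_of_notMem (fun h => (hZv v h).ne rfl), hZ,
      Finset.card_image_of_injective _ (fun i j h => c.injective (Subtype.ext h)),
      Finset.card_univ, Fintype.card_fin]
  have cardQ : Q.card = l := by
    rw [hQ, Finset.card_image_of_injective _ hq.inj, Finset.card_univ, ZMod.card]
  have hunion : (A ∪ Q).card + (A ∩ Q).card = r + 1 + l := by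
    rw [Finset.card_union_add_card_inter, cardA, cardQ]
  have hO : (A ∪ Q)ᶜ.card + (A ∪ Q).card = Fintype.card V := by
    rw [add_comm, Finset.card_add_card_compl]
  have hset : ∀ (p : ZMod l → Prop) [DecidablePred p],
      (Finset.univ.filter p).card = {i | p i}.ncard := by
    intro p _
    rw [← Set.ncard_coe_finset]
    congr 1
    ext i
    simp
  have hk3 : (A ∩ Q).card ≤ 3 := by
    have h1 : A ∩ Q ⊆ (Finset.univ.filter (fun i => q i = v ∨ G.Adj v (q i))).image q := by
      intro x hx
      rw [Finset.mem_inter] at hx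
      obtain ⟨i, rfl⟩ := (memQ x).1 hx.2
      rw [Finset.mem_image]
      refine ⟨i, ?_, rfl⟩
      rw [Finset.mem_filter]
      refine ⟨Finset.mem_univ _, ?_⟩
      rcases Finset.mem_insert.1 hx.1 with h | h
      · exact Or.inl h
      · exact Or.inr (hZv _ h)
    refine (Finset.card_le_card h1).trans (Finset.card_image_le.trans ?_)
    rw [hset]
    exact hq.ball1 v
  have hTc : T.card ≤ 4 + 2 * (A ∪ Q)ᶜ.card := by
    have h1 : T ⊆ (Finset.univ.filter (fun i => ∃ a, a ∉ Set.range q ∧ (a = v ∨ G.Adj v a) ∧
        G.Adj a (q i) ∧ G.Adj a (q (i + 1)))) ∪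
        ((A ∪ Q)ᶜ).biUnion (fun o => Finset.univ.filter
          (fun i => G.Adj o (q i) ∧ G.Adj o (q (i + 1)))) := by
      intro i hi
      obtain ⟨w, hw1, hw2⟩ := (memT i).1 hi
      have hwQ : w ∉ Set.range q := by
        rintro ⟨j, rfl⟩
        rw [hq.adj] at hw1 hw2
        rcases hw1 with e1 | e1 <;> rcases hw2 with e2 | e2
        · apply z1
          have : (1 : ZMod l) = (i + 1) - i := by ring
          rw [this, e2, e1, sub_self]
        · apply z3
          have : (3 : ZMod l) = (i + 1 + 1 + 1) - i := by ring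
          rw [this, ← e2, ← e1, sub_self]
        · apply z1
          have : (1 : ZMod l) = (i + 1) - j + (j - i) := by ring
          rw [this, e2]
          rw [e1] at e2
          have e3 : i + 1 = 0 + (i + 1) := by ring
          have e4 : (1 : ZMod l) = 0 := by
            have := add_right_cancel (b := i + 1) (a := (1 : ZMod l)) (c := 0) (by
              rw [zero_add]
              rw [e2]
              nth_rewrite 2 [e2]
              ring)
            exact this
          exact absurd e4 z1
        · apply z1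
          have : (1 : ZMod l) = (i + 1 + 1) - (i + 1) := by ring
          rw [this, ← e2, e1, sub_self]
      rw [Finset.mem_union]
      by_cases hwA : w ∈ A
      · left
        rw [Finset.mem_filter]
        refine ⟨Finset.mem_univ _, w, hwQ, ?_, hw1, hw2⟩
        rcases Finset.mem_insert.1 hwA with h | h
        · exact Or.inl h
        · exact Or.inr (hZv _ h)
      · right
        rw [Finset.mem_biUnion]
        refine ⟨w, ?_, ?_⟩
        · rw [Finset.mem_compl, Finset.mem_union]
          rintro (h | h)
          · exact hwA h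
          · exact hwQ ((memQ w).1 h)
        · rw [Finset.mem_filter]
          exact ⟨Finset.mem_univ _, hw1, hw2⟩
    refine (Finset.card_le_card h1).trans ((Finset.card_union_le _ _).trans ?_)
    refine add_le_add ?_ ?_
    · rw [hset]
      exact hq.cov4 v
    · refine Finset.card_biUnion_le.trans ?_
      rw [mul_comm, ← smul_eq_mul, ← Finset.sum_const]
      refine Finset.sum_le_sum fun o ho => ?_
      rw [hset]
      refine hq.cov1 o ?_
      intro h
      rw [Finset.mem_compl, Finset.mem_union] at ho
      exact ho (Or.inr ((memQ o).2 h))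
  -- `v` is not on `Q` at a bad position, or `A ∩ Q` is small
  have hk2 : ∀ i ∈ B, q i = v → (A ∩ Q).card ≤ 2 := by
    intro i hi hiv
    -- a vertex of the cycle in the link has a neighbour on it
    have hnb : ∀ x ∈ Z, ∃ w, G.Adj w v ∧ G.Adj w x := by
      intro x hx
      obtain ⟨j, rfl⟩ := (memZ x).1 hx
      refine ⟨(c (nx j)).1, (c (nx j)).2.symm, ?_⟩
      have h1 : (SimpleGraph.cycleGraph r).Adj (nx j) j := by
        rw [cyc_adj (by omega)]
        have hj := j.2
        have e : (nx j).val = (j.val + 1) % r := rfl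
        rw [e]
        rcases Nat.lt_or_ge (j.val + 1) r with h5 | h5
        · rw [Nat.mod_eq_of_lt h5]; omega
        · rw [show j.val + 1 = r from by omega, Nat.mod_self]; omega
      exact c.map_adj_iff.2 h1
    have hsub : ∀ x ∈ A ∩ Q, x = v ∨ (x = q (i + 1) ∧ x ∈ Z) ∨ (x = q (i - 1) ∧ x ∈ Z) := by
      intro x hx
      rw [Finset.mem_inter] at hx
      rcases Finset.mem_insert.1 hx.1 with h | h
      · exact Or.inl h
      · right
        obtain ⟨j, rfl⟩ := (memQ x).1 hx.2
        have h1 := hZv _ h
        rw [← hiv, hq.adj] at h1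
        rcases h1 with h1 | h1
        · left; rw [← h1]; exact ⟨rfl, h⟩
        · right
          have h2 : j = i - 1 := by rw [h1]; ring
          rw [← h2]; exact ⟨rfl, h⟩
    rcases (memB i).1 hi with hi1 | hi1
    · have h1 : A ∩ Q ⊆ {v, q (i - 1)} := by
        intro x hx
        rw [Finset.mem_insert, Finset.mem_singleton]
        rcases hsub x hx with h | ⟨h, h'⟩ | ⟨h, h'⟩
        · exact Or.inl h
        · exfalso
          apply hi1
          rw [memT]
          obtain ⟨w, hw1, hw2⟩ := hnb x h'
          exact ⟨w, by rw [hiv]; exact hw1, by rw [← h]; exact hw2⟩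
        · exact Or.inr h
      exact (Finset.card_le_card h1).trans Finset.card_le_two
    · have h1 : A ∩ Q ⊆ {v, q (i + 1)} := by
        intro x hx
        rw [Finset.mem_insert, Finset.mem_singleton]
        rcases hsub x hx with h | ⟨h, h'⟩ | ⟨h, h'⟩
        · exact Or.inl h
        · exact Or.inr h
        · exfalso
          apply hi1
          rw [memT]
          obtain ⟨w, hw1, hw2⟩ := hnb x h'
          refine ⟨w, by rw [← h]; exact hw2, ?_⟩
          rw [sub_add_cancel, hiv]
          exact hw1
      exact (Finset.card_le_card h1).trans Finset.card_le_two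
  -- the count
  have hodd : Fintype.card V + 1 ≤ r + l ∨ (18 ≤ Fintype.card V ∧ Fintype.card V ≤ r + l) := by
    rcases hN with ⟨_, m, hm⟩ | h
    · left; omega
    · right; omega
  have hTl : T.card < l := by omega
  have hTu : T ≠ Finset.univ := by
    intro h
    rw [h, Finset.card_univ, ZMod.card] at hTl
    omega
  have hBc := hBcard hTu
  have hB2 : 1 < B.card := by omega
  obtain ⟨i, hi, j, hj, hij⟩ := Finset.one_lt_card.1 hB2
  obtain ⟨i0, hi0, hi0v⟩ : ∃ i0 ∈ B, q i0 = v := by
    rcases hBv i hi j hj hij with h | h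
    · exact ⟨i, hi, h⟩
    · exact ⟨j, hj, h⟩
  have hk := hk2 i0 hi0 hi0v
  have hB3 : 2 < B.card := by omega
  have hB4 : 1 < (B.erase i0).card := by
    rw [Finset.card_erase_of_mem hi0]
    omega
  obtain ⟨i, hi, j, hj, hij⟩ := Finset.one_lt_card.1 hB4
  rw [Finset.mem_erase] at hi hj
  rcases hBv i hi.2 j hj.2 hij with h | h
  · exact hi.1 (hq.inj (h.trans hi0v.symm))
  · exact hj.1 (hq.inj (h.trans hi0v.symm))

end Pool.Agent.P8H81.RC
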