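import Pool.Agent.P8H79.RC.Stm4
import Pool.Agent.P8H1.RC.Emb
import Pool.Agent.P8H1.RC.Cntw

/-!
# Project RC: cycles in links, closed neighbourhoods and the cycle `Q`.
-/

set_option autoImplicit false

namespace Pool.Agent.P8H81.RC

open Pool.Agent.P8H79.RC Pool.Agent.P8H1.RC

variable {V : Type} {G : SimpleGraph V}

theorem no_k4 (h4 : G.CliqueFree 4) {a b c d : V} (h1 : G.Adj a b) (h2 : G.Adj a c)
    (h3 : G.Adj a d) (h5 : G.Adj b c) (h6 : G.Adj b d) (h7 : G.Adj c d) : False := by
  classical
  refine h4 {a, b, c, d} ?_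
  rw [SimpleGraph.isNClique_iff]
  constructor
  · intro p hp q hq hpq
    simp only [Finset.coe_insert, Finset.coe_singleton, Set.mem_insert_iff,
      Set.mem_singleton_iff] at hp hq
    rcases hp with hp | hp | hp | hp <;> rcases hq with hq | hq | hq | hq <;> rw [hp, hq] <;>
      (try rw [hp, hq] at hpq) <;>
      first
      | exact absurd rfl hpq
      | assumption
      | exact SimpleGraph.Adj.symm (by assumption)
  · rw [Finset.card_insert_of_notMem, Finset.card_insert_of_notMem,
      Finset.card_insert_of_notMem, Finset.card_singleton]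
    · simpa using h7.ne
    · simpa using ⟨h5.ne, h6.ne⟩
    · simpa using ⟨h1.ne, h2.ne, h3.ne⟩

/-- The inclusion of the link. -/
def incl (G : SimpleGraph V) (v : V) : link G v ↪g G := SimpleGraph.Embedding.induce _

theorem hole_link [Finite V] (h4 : G.CliqueFree 4) {N : ℕ} (hN : NoShort G N) (v : V)
    (h : ¬ (link G v).IsAcyclic) :
    ∃ r, 4 ≤ r ∧ N ≤ 2 * r ∧ Nonempty (SimpleGraph.cycleGraph r ↪g link G v) := by
  obtain ⟨r, hr, ⟨c⟩⟩ := hole _ (link G v) h
  have hr4 : 4 ≤ r := by
    by_contra hcon
    have h3 : r = 3 := by omega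
    subst h3
    have e : ∀ i j : Fin 3, i ≠ j → G.Adj (c i).1 (c j).1 := by
      intro i j hij
      have h1 : (SimpleGraph.cycleGraph 3).Adj i j := by
        revert i j; decide
      exact c.map_adj_iff.2 h1
    exact no_k4 h4 (c 0).2 (c 1).2 (c 2).2 (e 0 1 (by decide)) (e 0 2 (by decide))
      (e 1 2 (by decide))
  refine ⟨r, hr4, ?_, ⟨c⟩⟩
  by_contra hcon
  exact (hN r hr4 (by omega)).false (c.trans (incl G v))

theorem closed_card [Fintype V] {l : ℕ} [NeZero l] {q : ZMod l → V} (hq : QGood G l q) (v : V) :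
    (G.neighborSet v).ncard + 1 + l ≤ Fintype.card V + 3 := by
  classical
  have h1 := Set.ncard_union_add_ncard_inter (insert v (G.neighborSet v)) (Set.range q)
    (Set.toFinite _) (Set.toFinite _)
  have h2 : (insert v (G.neighborSet v)).ncard = (G.neighborSet v).ncard + 1 :=
    Set.ncard_insert_of_notMem (by simp) (Set.toFinite _)
  have h3 : (Set.range q).ncard = l := by
    rw [← Set.image_univ, Set.ncard_image_of_injective _ hq.inj, Set.ncard_univ, Nat.card_zmod]
  have h4 : (insert v (G.neighborSet v) ∩ Set.range q).ncard ≤ 3 := by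
    refine le_trans ?_ (hq.ball1 v)
    refine le_trans (Set.ncard_le_ncard (t := q '' {i | q i = v ∨ G.Adj v (q i)}) ?_
      (Set.toFinite _)) (Set.ncard_image_le (Set.toFinite _))
    rintro x ⟨hx, i, rfl⟩
    exact ⟨i, hx, rfl⟩
  have h5 : (insert v (G.neighborSet v) ∪ Set.range q).ncard ≤ Fintype.card V := by
    rw [← Nat.card_eq_fintype_card]
    exact Set.ncard_le_card _
  omega

theorem edge_le {W : Type} [Finite W] (H : SimpleGraph W) (g : W → W)
    (hg : ∀ a b, H.Adj a b → b = g a ∨ a = g b) : H.edgeSet.ncard ≤ Nat.card W := by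
  have h1 : H.edgeSet ⊆ Set.range (fun x => s(x, g x)) := by
    intro e he
    induction e with
    | h a b =>
      rw [SimpleGraph.mem_edgeSet] at he
      rcases hg a b he with h | h
      · exact ⟨a, by rw [h]⟩
      · exact ⟨b, by simp only; rw [← h, Sym2.eq_swap]⟩
  refine (Set.ncard_le_ncard h1 (Set.toFinite _)).trans ?_
  rw [← Set.image_univ]
  exact (Set.ncard_image_le (Set.toFinite _)).trans (by rw [Set.ncard_univ])

/-- The number of vertices of the closed neighbourhood and of a cycle in the link. -/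
theorem link_le [Finite V] {v : V} {r : ℕ} (c : SimpleGraph.cycleGraph r ↪g link G v) :
    r ≤ (G.neighborSet v).ncard := by
  have h := Finite.card_le_of_embedding c.toEmbedding
  rw [Nat.card_fin] at h
  exact h

end Pool.Agent.P8H81.RC
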