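import Pool.Agent.P8H79.RC.Stm4
import Pool.Agent.P8H52.RC.Short
import Pool.Agent.P8H1.RC.Win

/-!
# Project RC: package QF (the double cover of a shortest odd closed walk).
-/

set_option autoImplicit false

namespace Pool.Agent.P8H81.RC

open Pool.Agent.P8H79.RC Pool.Agent.P8H52.RC

variable {V : Type} {G : SimpleGraph V}

/-- WIN for sets of natural numbers. -/
theorem winN {l k : ℕ} (hl : 3 * k < l) (S : Finset ℕ) (hS : ∀ i ∈ S, i < l)
    (h : ∀ i ∈ S, ∀ j ∈ S, cd l i j ≤ k) : S.card ≤ k + 1 := by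
  have h1 := Pool.Agent.P8H1.RC.win l k hl (S.attachFin hS) (by
    intro i hi j hj
    rw [Finset.mem_attachFin] at hi hj
    exact h _ hi _ hj)
  rwa [Finset.card_attachFin] at h1

theorem succ_card {m : ℕ} (S : Finset ℕ) (hS : ∀ i ∈ S, i < m) (hc : S.card < m) :
    (S.filter (fun p => (p + 1) % m ∈ S)).card ≤ S.card - 1 := by
  rcases S.eq_empty_or_nonempty with rfl | ⟨p0, hp0⟩
  · simp
  by_contra hcon
  have h1 : S.filter (fun p => (p + 1) % m ∈ S) = S := by
    apply Finset.eq_of_subset_of_card_le (Finset.filter_subset _ _)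
    have : 0 < S.card := Finset.card_pos.2 ⟨p0, hp0⟩
    omega
  have h2 : ∀ p ∈ S, (p + 1) % m ∈ S := by
    intro p hp
    rw [← h1] at hp
    exact (Finset.mem_filter.1 hp).2
  have h3 : ∀ k, (p0 + k) % m ∈ S := by
    intro k
    induction k with
    | zero => rw [add_zero, Nat.mod_eq_of_lt (hS _ hp0)]; exact hp0
    | succ k ih =>
      have := h2 _ ih
      rwa [Nat.mod_add_mod, add_assoc] at this
  have h4 : Finset.range m ⊆ S := by
    intro i hi
    rw [Finset.mem_range] at hi
    have hp := hS _ hp0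
    have := h3 (m - p0 + i)
    rwa [show p0 + (m - p0 + i) = i + m from by omega, Nat.add_mod_right,
      Nat.mod_eq_of_lt hi] at this
  have := Finset.card_le_card h4
  rw [Finset.card_range] at this
  omega

/-- A shortest odd closed walk, extended periodically, with the sheet `T`. -/
structure Data (G : SimpleGraph V) (φ : V → V → ZMod 2) (l : ℕ) (q : ℕ → V)
    (T : ℕ → ZMod 2) : Prop where
  per : ∀ n, q (n + l) = q n
  tper : ∀ n, T (n + l) = T n + 1
  adj : ∀ n, G.Adj (q n) (q (n + 1))
  tadj : ∀ n, T (n + 1) = T n + φ (q n) (q (n + 1))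
  sym : ∀ a b, φ a b = φ b a
  tri : ∀ a b c, G.Adj a b → G.Adj b c → G.Adj a c → φ a b + φ b c + φ a c = 0
  min : ∀ a n, R G φ a a n 1 → l ≤ n

theorem z1 (x y : ZMod 2) : (x + y) + (y + (x + 1)) = 1 := by
  revert x y; decide

theorem z1' (x y : ZMod 2) : (x + y) + (x + 1 + y) = 1 := by
  revert x y; decide

section

variable {φ : V → V → ZMod 2} {l : ℕ} {q : ℕ → V} {T : ℕ → ZMod 2}

theorem Data.arc (D : Data G φ l q T) (n m : ℕ) (h : n ≤ m) :
    R G φ (q n) (q m) (m - n) (T n + T m) := by
  induction m, h using Nat.le_induction with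
  | base => rw [Nat.sub_self, z2add]; exact R.refl _
  | succ m hm ih =>
    have h1 := ih.trans (R.adj (D.adj m))
    rw [show m - n + 1 = m + 1 - n from by omega, add_assoc, ← D.tadj] at h1
    exact h1

theorem Data.iso_le (D : Data G φ l q T) (p p' m : ℕ) (hp' : p' < 2 * l)
    (hpp : p ≤ p') (h : R G φ (q p) (q p') m (T p + T p')) : cd (2 * l) p p' ≤ m := by
  rw [cd, max_eq_right hpp, min_eq_left hpp]
  rcases le_total p' (p + l) with h1 | h1
  · have h2 := D.arc p' (p + l) h1
    rw [D.per, D.tper] at h2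
    have h3 := h.trans h2
    rw [z1] at h3
    have := D.min _ _ h3
    omega
  · have h2 := D.arc (p + l) p' h1
    rw [D.per, D.tper] at h2
    have h3 := h.trans (h2.symm D.sym)
    rw [z1'] at h3
    have := D.min _ _ h3
    omega

theorem Data.iso (D : Data G φ l q T) (p p' m : ℕ) (hp : p < 2 * l) (hp' : p' < 2 * l)
    (h : R G φ (q p) (q p') m (T p + T p')) : cd (2 * l) p p' ≤ m := by
  rcases le_total p p' with h1 | h1
  · exact D.iso_le p p' m hp' h1 h
  · have h2 := h.symm D.sym
    rw [add_comm] at h2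
    have h3 := D.iso_le p' p m hp h1 h2
    rw [cd, max_comm, min_comm p' p] at h3
    exact h3

/-- The distance from `(a, c)` to the position `p` in the double cover is at most `k`. -/
def near (G : SimpleGraph V) (φ : V → V → ZMod 2) (q : ℕ → V) (T : ℕ → ZMod 2)
    (a : V) (c : ZMod 2) (k p : ℕ) : Prop :=
  ∃ m, m ≤ k ∧ R G φ a (q p) m (T p + c)

theorem z3 (x y c c' : ZMod 2) : x + c + (c + c') + (y + c') = x + y := by
  revert x y c c'; decide

theorem Data.pair (D : Data G φ l q T) {a b : V} {c c' : ZMod 2} {k k' d p p' : ℕ}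
    (hp : p < 2 * l) (hp' : p' < 2 * l) (h1 : near G φ q T a c k p)
    (h2 : near G φ q T b c' k' p') (h3 : R G φ a b d (c + c')) :
    cd (2 * l) p p' ≤ k + d + k' := by
  obtain ⟨m, hm, h1⟩ := h1
  obtain ⟨m', hm', h2⟩ := h2
  have h4 := ((h1.symm D.sym).trans h3).trans h2
  rw [z3] at h4
  have := D.iso p p' _ hp hp' h4
  omega

theorem z4 (x c : ZMod 2) : x = c ∨ x + 1 = c := by
  revert x c; decide

theorem Data.lift (D : Data G φ l q T) (i : ℕ) (hi : i < l) (c : ZMod 2) :
    ∃ p, p < 2 * l ∧ p % l = i ∧ q p = q i ∧ T p = c := by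
  rcases z4 (T i) c with h | h
  · exact ⟨i, by omega, Nat.mod_eq_of_lt hi, rfl, h⟩
  · exact ⟨i + l, by omega, by rw [Nat.add_mod_right, Nat.mod_eq_of_lt hi], D.per i,
      by rw [D.tper]; exact h⟩

theorem Data.per2 (D : Data G φ l q T) (n : ℕ) : q (n % l) = q n := by
  have h : ∀ k m, q (m + k * l) = q m := by
    intro k
    induction k with
    | zero => intro m; simp
    | succ k ih => intro m; rw [Nat.add_mul, one_mul, ← add_assoc, D.per, ih]
  conv_rhs => rw [← Nat.mod_add_div' n l]
  rw [h]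

theorem Data.mod2 (D : Data G φ l q T) (p : ℕ) (hp : p < 2 * l) :
    q ((p + 1) % (2 * l)) = q (p + 1) ∧ T ((p + 1) % (2 * l)) = T (p + 1) := by
  rcases Nat.lt_or_ge (p + 1) (2 * l) with h | h
  · rw [Nat.mod_eq_of_lt h]
    exact ⟨rfl, rfl⟩
  · have h1 : p + 1 = 0 + l + l := by omega
    have h2 : (p + 1) % (2 * l) = 0 := by
      rw [h1, show 0 + l + l = 2 * l from by ring, Nat.mod_self]
    rw [h2, h1, D.per, D.per, D.tper, D.tper, add_assoc, z2add, add_zero]
    exact ⟨rfl, rfl⟩

theorem ncard_pos [NeZero l] (B : Set (ZMod l)) (S : Finset ℕ)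
    (h : ∀ i ∈ B, ∃ p ∈ S, p % l = i.val) : B.ncard ≤ S.card := by
  classical
  have h1 : B ⊆ ((S.image (fun p : ℕ => (p : ZMod l)) : Finset (ZMod l)) : Set (ZMod l)) := by
    intro i hi
    obtain ⟨p, hp, hpi⟩ := h i hi
    rw [Finset.mem_coe, Finset.mem_image]
    refine ⟨p, hp, ?_⟩
    rw [← ZMod.natCast_mod p l, hpi, ZMod.natCast_zmod_val]
  refine (Set.ncard_le_ncard h1 (Finset.finite_toSet _)).trans ?_
  rw [Set.ncard_coe_finset]
  exact Finset.card_image_le

theorem z5 (c x y z : ZMod 2) (h : x + y + z = 0) : c + z = c + x + y := by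
  revert c x y z; decide

theorem Data.cov (D : Data G φ l q T) [NeZero l] (k : ℕ) (hk : 3 * (2 * k) < 2 * l)
    (hk2 : 2 * k + 1 < 2 * l) (v : V)
    (B : Set (ZMod l)) (hB : ∀ i ∈ B, ∃ a m c, m + 1 ≤ k ∧ R G φ v a m c ∧
      G.Adj a (q i.val) ∧ G.Adj a (q (i.val + 1))) : B.ncard ≤ 2 * k := by
  classical
  set S : Finset ℕ := (Finset.range (2 * l)).filter (near G φ q T v 0 k) with hS
  have hSlt : ∀ p ∈ S, p < 2 * l := by
    intro p hp
    rw [hS, Finset.mem_filter, Finset.mem_range] at hp
    exact hp.1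
  have hSn : ∀ p ∈ S, near G φ q T v 0 k p := by
    intro p hp
    rw [hS, Finset.mem_filter] at hp
    exact hp.2
  have h1 : S.card ≤ 2 * k + 1 := by
    refine winN hk S hSlt fun i hi j hj => ?_
    have := D.pair (hSlt i hi) (hSlt j hj) (hSn i hi) (hSn j hj) (d := 0) (by
      rw [z2add]; exact R.refl _)
    omega
  have h2 := succ_card S hSlt (by omega)
  have h3 := ncard_pos B (S.filter (fun p => (p + 1) % (2 * l) ∈ S)) (by
    intro i hi
    obtain ⟨a, m, c, hm, hR, ha1, ha2⟩ := hB i hi
    obtain ⟨p, hp, hpi, hqp, hTp⟩ := D.lift i.val (ZMod.val_lt i) (c + φ a (q i.val))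
    have hq1 : q (p + 1) = q (i.val + 1) := by
      rw [← D.per2 (p + 1), ← D.per2 (i.val + 1), ← Nat.mod_add_mod, hpi]
    obtain ⟨hm1, hm2⟩ := D.mod2 p hp
    refine ⟨p, ?_, hpi⟩
    rw [Finset.mem_filter]
    refine ⟨?_, ?_⟩
    · rw [hS, Finset.mem_filter, Finset.mem_range]
      refine ⟨hp, m + 1, hm, ?_⟩
      have h4 := hR.trans (R.adj (φ := φ) ha1)
      rw [add_zero, hTp, hqp]
      exact h4
    · rw [hS, Finset.mem_filter, Finset.mem_range]
      refine ⟨Nat.mod_lt _ (by omega), m + 1, hm, ?_⟩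
      have h4 := hR.trans (R.adj (φ := φ) ha2)
      have h5 := D.tri a (q p) (q (p + 1)) (by rw [hqp]; exact ha1) (D.adj p)
        (by rw [hq1]; exact ha2)
      rw [add_zero, hm1, hm2, D.tadj, hTp, ← hqp, ← z5 _ _ _ _ h5, hq1]
      exact h4)
  omega

theorem Data.ball (D : Data G φ l q T) [NeZero l] (k : ℕ) (hk : 3 * k < 2 * l)
    (P : ℕ → Prop) (hP : ∀ p p', p < 2 * l → p' < 2 * l → P p → P p' → cd (2 * l) p p' ≤ k)
    (B : Set (ZMod l)) (hB : ∀ i ∈ B, ∃ p, p < 2 * l ∧ p % l = i.val ∧ P p) :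
    B.ncard ≤ k + 1 := by
  classical
  refine (ncard_pos B ((Finset.range (2 * l)).filter P) ?_).trans ?_
  · intro i hi
    obtain ⟨p, hp, hpi, hPp⟩ := hB i hi
    exact ⟨p, by rw [Finset.mem_filter, Finset.mem_range]; exact ⟨hp, hPp⟩, hpi⟩
  · refine winN hk _ ?_ ?_
    · intro i hi
      rw [Finset.mem_filter, Finset.mem_range] at hi
      exact hi.1
    · intro i hi j hj
      rw [Finset.mem_filter, Finset.mem_range] at hi hj
      exact hP _ _ hi.1 hj.1 hi.2 hj.2

theorem Data.ex1 (D : Data G φ l q T) [NeZero l] (v : V) (c : ZMod 2) (i : ZMod l)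
    (h : q i.val = v ∨ G.Adj v (q i.val)) :
    ∃ p, p < 2 * l ∧ p % l = i.val ∧ near G φ q T v c 1 p := by
  rcases h with h | h
  · obtain ⟨p, hp, hpi, hqp, hTp⟩ := D.lift i.val (ZMod.val_lt i) c
    refine ⟨p, hp, hpi, 0, by omega, ?_⟩
    rw [hTp, z2add, hqp, h]
    exact R.refl _
  · obtain ⟨p, hp, hpi, hqp, hTp⟩ := D.lift i.val (ZMod.val_lt i) (φ v (q i.val) + c)
    refine ⟨p, hp, hpi, 1, le_rfl, ?_⟩
    rw [hTp, add_assoc, z2add, add_zero, hqp]
    exact R.adj h

theorem Data.good (D : Data G φ l q T) [NeZero l] (hl : 7 ≤ l) :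
    QGood G l (fun i : ZMod l => q i.val) := by
  have hcast : ∀ n : ℕ, q ((n : ZMod l)).val = q n := by
    intro n
    rw [ZMod.val_natCast, D.per2]
  have hsucc : ∀ i : ZMod l, q (i + 1).val = q (i.val + 1) := by
    intro i
    rw [← hcast (i.val + 1), Nat.cast_add, ZMod.natCast_zmod_val, Nat.cast_one]
  refine ⟨?_, ?_, ?_, ?_, ?_, ?_⟩
  · intro i j hij
    simp only at hij
    obtain ⟨p, hp, hpi, hqp, hTp⟩ := D.lift j.val (ZMod.val_lt j) (T i.val)
    have hi := ZMod.val_lt i
    have h1 := D.iso i.val p 0 (by omega) hp (by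
      rw [hTp, z2add, hqp, ← hij]
      exact R.refl _)
    have h2 : i.val = p := by
      rw [cd] at h1
      omega
    apply ZMod.val_injective l
    rw [← hpi, ← h2, Nat.mod_eq_of_lt hi]
  · intro i j
    constructor
    · intro h
      obtain ⟨p, hp, hpi, hqp, hTp⟩ := D.lift j.val (ZMod.val_lt j)
        (T i.val + φ (q i.val) (q j.val))
      have hi := ZMod.val_lt i
      have h1 := D.iso i.val p 1 (by omega) hp (by
        rw [hTp, ← add_assoc, z2add, zero_add, hqp]
        exact R.adj h)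
      have hj : (p : ZMod l) = j := by
        rw [← ZMod.natCast_mod p l, hpi, ZMod.natCast_zmod_val]
      have hii : (i.val : ZMod l) = i := ZMod.natCast_zmod_val i
      have h2 : i.val = p ∨ p = i.val + 1 ∨ i.val = p + 1 ∨ (i.val = 0 ∧ p + 1 = 2 * l) := by
        rw [cd] at h1
        omega
      rcases h2 with h2 | h2 | h2 | ⟨h2, h3⟩
      · exfalso
        have : i = j := by rw [← hj, ← h2, hii]
        rw [this] at h
        exact G.loopless.irrefl _ h
      · left
        rw [← hj, h2, Nat.cast_add, hii, Nat.cast_one]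
      · right
        rw [← hj, ← hii, h2, Nat.cast_add, Nat.cast_one]
      · right
        rw [← hj, ← hii, h2]
        have h4 : ((p + 1 : ℕ) : ZMod l) = 0 := by
          rw [h3, Nat.cast_mul, ZMod.natCast_self, mul_zero]
        rw [Nat.cast_add, Nat.cast_one] at h4
        rw [h4, Nat.cast_zero]
    · rintro (h | h)
      · rw [h, hsucc]
        exact D.adj _
      · rw [h, hsucc]
        exact (D.adj _).symm
  · intro w _
    refine D.cov 1 (by omega) (by omega) w _ ?_
    rintro i ⟨h1, h2⟩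
    rw [hsucc] at h2
    exact ⟨w, 0, 0, by omega, R.refl _, h1, h2⟩
  · intro v
    refine D.cov 2 (by omega) (by omega) v _ ?_
    rintro i ⟨a, _, h0, h1, h2⟩
    rw [hsucc] at h2
    rcases h0 with rfl | h0
    · exact ⟨a, 0, 0, by omega, R.refl _, h1, h2⟩
    · exact ⟨a, 1, φ v a, by omega, R.adj h0, h1, h2⟩
  · intro v
    refine D.ball 2 (by omega) (near G φ q T v 0 1) ?_ _ ?_
    · intro p p' hp hp' h h'
      exact D.pair hp hp' h h' (d := 0) (by rw [z2add]; exact R.refl _)
    · intro i hi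
      exact D.ex1 v 0 i hi
  · intro u v huv
    refine D.ball 3 (by omega)
      (fun p => near G φ q T v 0 1 p ∨ near G φ q T u (φ v u) 1 p) ?_ _ ?_
    · intro p p' hp hp' h h'
      rcases h with h | h <;> rcases h' with h' | h'
      · have := D.pair hp hp' h h' (d := 0) (by rw [z2add]; exact R.refl _)
        omega
      · exact D.pair hp hp' h h' (d := 1) (by rw [zero_add]; exact R.adj huv.symm)
      · exact D.pair hp hp' h h' (d := 1) (by
          rw [add_zero, D.sym v u]; exact R.adj huv)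
      · have := D.pair hp hp' h h' (d := 0) (by rw [z2add]; exact R.refl _)
        omega
    · intro i hi
      rcases hi with hi | hi
      · obtain ⟨p, hp, hpi, h⟩ := D.ex1 v 0 i hi
        exact ⟨p, hp, hpi, Or.inl h⟩
      · obtain ⟨p, hp, hpi, h⟩ := D.ex1 u (φ v u) i hi
        exact ⟨p, hp, hpi, Or.inr h⟩

end

theorem qf : S_QF := by
  intro V _ G φ hc hs ht hf
  classical
  obtain ⟨n0, a0, h0⟩ := exists_odd φ hc hs hf
  have hex : ∃ n, ∃ a, R G φ a a n 1 := ⟨n0, a0, h0⟩
  obtain ⟨r, Q, hQl, hQp⟩ := Nat.find_spec hex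
  have hmin : ∀ a n, R G φ a a n 1 → Nat.find hex ≤ n := fun a n h => Nat.find_min' hex ⟨a, h⟩
  generalize Nat.find hex = l at hQl hmin
  set q : ℕ → V := fun i => Q.getVert i with hq
  have hq0 : q 0 = r := by simp [hq]
  have hql : q l = r := by simp [hq, ← hQl]
  have hadj : ∀ i, i < l → G.Adj (q i) (q (i + 1)) := fun i hi =>
    Q.adj_getVert_succ (by omega)
  set S : ℕ → ℕ → ZMod 2 := fun i j => ∑ k ∈ Finset.Ico i j, φ (q k) (q (k + 1)) with hS
  have hS1 : S 0 l = 1 := by
    rw [← hQp, par_eq_sum, hQl, hS]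
    simp [hq]
  have h4 : 4 ≤ l := by
    by_contra hlt
    have hcases : l = 0 ∨ l = 1 ∨ l = 2 ∨ l = 3 := by omega
    rcases hcases with h | h | h | h
    · rw [h] at hS1; simp [hS] at hS1
    · have h1 := hadj 0 (by omega)
      have h2 : q (0 + 1) = q 0 := by rw [hq0]; rw [h] at hql; exact hql
      rw [h2] at h1
      exact G.loopless.irrefl _ h1
    · have h2 : q 2 = q 0 := by rw [hq0]; rw [h] at hql; exact hql
      rw [h] at hS1
      simp only [hS, Finset.sum_Ico_succ_top (by omega : 0 ≤ 1),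
        Finset.sum_Ico_succ_top (le_refl 0), Finset.Ico_self, Finset.sum_empty, zero_add] at hS1
      rw [h2, hs (q 1) (q 0), z2add] at hS1
      exact absurd hS1 (by decide)
    · have h2 : q 3 = q 0 := by rw [hq0]; rw [h] at hql; exact hql
      have a1 := hadj 0 (by omega)
      have a2 := hadj 1 (by omega)
      have a3 := hadj 2 (by omega)
      rw [h] at hS1
      have e : S 0 3 = φ (q 0) (q 1) + φ (q 1) (q 2) + φ (q 2) (q 3) := by
        simp only [hS]
        rw [Finset.sum_Ico_succ_top (by omega), Finset.sum_Ico_succ_top (by omega),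
          Finset.sum_Ico_succ_top (by omega), Finset.Ico_self, Finset.sum_empty, zero_add]
      rw [e] at hS1
      simp only [zero_add, Nat.reduceAdd] at a1 a2 a3
      rw [h2] at a3 hS1
      rw [hs (q 2) (q 0), ht _ _ _ a1 a2 a3.symm] at hS1
      exact absurd hS1 (by decide)
  have hl0 : 0 < l := by omega
  -- periodic extension
  set q' : ℕ → V := fun n => q (n % l) with hq'
  set T : ℕ → ZMod 2 := fun n => ∑ k ∈ Finset.range n, φ (q' k) (q' (k + 1)) with hT
  have hper : ∀ n, q' (n + l) = q' n := by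
    intro n
    simp only [hq', Nat.add_mod_right]
  have hq'lt : ∀ n, n ≤ l → q' n = q n := by
    intro n hn
    rcases Nat.lt_or_ge n l with h | h
    · simp only [hq', Nat.mod_eq_of_lt h]
    · have : n = l := by omega
      rw [this]
      simp only [hq', Nat.mod_self]
      rw [hq0, hql]
  have hadj' : ∀ n, G.Adj (q' n) (q' (n + 1)) := by
    intro n
    have h1 : n % l < l := Nat.mod_lt _ hl0
    have h2 : q' (n + 1) = q' (n % l + 1) := by
      simp only [hq', Nat.mod_add_mod]
    rw [h2, hq'lt (n % l + 1) (by omega)]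
    exact hadj _ h1
  have hTsucc : ∀ n, T (n + 1) = T n + φ (q' n) (q' (n + 1)) := by
    intro n
    simp only [hT]
    rw [Finset.sum_range_succ]
  have hT0 : T 0 = 0 := by simp [hT]
  have hTl : T l = 1 := by
    rw [← hS1]
    simp only [hT, hS, Nat.Ico_zero_eq_range]
    refine Finset.sum_congr rfl fun k hk => ?_
    rw [Finset.mem_range] at hk
    rw [hq'lt k (by omega), hq'lt (k + 1) (by omega)]
  have htper : ∀ n, T (n + l) = T n + 1 := by
    intro n
    induction n with
    | zero => rw [zero_add, hTl, hT0, zero_add]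
    | succ n ih =>
      rw [show n + 1 + l = (n + l) + 1 from by omega, hTsucc, ih, hTsucc, hper,
        show n + l + 1 = (n + 1) + l from by omega, hper]
      ring
  have D : Data G φ l q' T := ⟨hper, htper, hadj', hTsucc, hs, ht, hmin⟩
  -- the embedding
  have hcyc : Nonempty (SimpleGraph.cycleGraph l ↪g G) := by
    have key2 : ∀ i j m c, i < l → j < l → R G φ (q' i) (q' j) m c → cd l i j ≤ m := by
      intro i j m c hi hj hR
      obtain ⟨p, hp, hpj, hqp, hTp⟩ := D.lift j hj (T i + c)
      have h1 := D.iso i p m (by omega) hp (by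
        rw [hTp, ← add_assoc, z2add, zero_add, hqp]
        exact hR)
      have h2 : p = j ∨ p = j + l := by
        have h3 := Nat.mod_add_div p l
        rw [hpj] at h3
        have h4 : p / l < 2 := by
          rw [Nat.div_lt_iff_lt_mul hl0]
          exact hp
        have h6 : p / l = 0 ∨ p / l = 1 := by
          generalize p / l = t at h4
          omega
        rcases h6 with h5 | h5
        · rw [h5] at h3; left; omega
        · rw [h5] at h3; right; omega
      rw [cd] at h1 ⊢
      rcases h2 with h2 | h2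
      · rw [h2] at h1
        omega
      · rw [h2] at h1
        omega
    refine ⟨⟨⟨fun i => q' i.val, ?_⟩, ?_⟩⟩
    · intro i j hij
      simp only at hij
      have h1 := key2 i.val j.val 0 0 i.2 j.2 (by rw [← hij]; exact R.refl _)
      have hi := i.2
      have hj := j.2
      rw [cd] at h1
      exact Fin.ext (by omega)
    · intro i j
      rw [cyc_adj l (by omega)]
      show G.Adj (q' i.val) (q' j.val) ↔ _
      have hi := i.2
      have hj := j.2
      constructor
      · intro h
        have h1 := key2 i.val j.val 1 _ i.2 j.2 (R.adj h)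
        have h2 : i.val ≠ j.val := by
          intro e
          rw [e] at h
          exact G.loopless.irrefl _ h
        rw [cd] at h1
        omega
      · have hlast : G.Adj (q' (l - 1)) (q' 0) := by
          have h1 := hadj' (l - 1)
          rwa [show l - 1 + 1 = 0 + l from by omega, hper] at h1
        intro h
        rcases h with h | h | ⟨h, h'⟩ | ⟨h, h'⟩
        · rw [h]; exact hadj' _
        · rw [h]; exact (hadj' _).symm
        · rw [h, h']; exact hlast.symm
        · rw [h, h']; exact hlast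
  refine ⟨l, h4, hcyc, fun h7 => ?_⟩
  have : NeZero l := ⟨by omega⟩
  exact ⟨_, D.good h7⟩

end Pool.Agent.P8H81.RC
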